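import Mathlib

/-!
# Games, Turing reducibility, lists of computable members, Marczewski null sets
-/

set_option autoImplicit false

namespace Pool.Agent.Helper25TD

/-- the list of the first `n` bits of `x` -/
def pre (x : ℕ → Bool) (n : ℕ) : List Bool := (List.range n).map x

/-- The characteristic function of `x : ℕ → Bool` as a (total) number function. -/
def chi (x : ℕ → Bool) : ℕ →. ℕ := fun n => Part.some (x n).toNat

/-- `x` is Turing reducible to `y` -/
def TLE (x y : ℕ → Bool) : Prop := TuringReducible (chi x) (chi y)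

/-- Player I, who chooses the bits `x 0, x 2, x 4, ...`, has a winning strategy in the game
with payoff set `A`. -/
def WinsI (A : Set (ℕ → Bool)) : Prop :=
  ∃ σ : List Bool → Bool, ∀ x : ℕ → Bool, (∀ n, x (2 * n) = σ (pre x (2 * n))) → x ∈ A

/-- Player II, who chooses the bits `x 1, x 3, x 5, ...`, has a winning strategy in the game
with payoff set `A` (that is, he can avoid `A`). -/
def WinsII (A : Set (ℕ → Bool)) : Prop :=
  ∃ τ : List Bool → Bool, ∀ x : ℕ → Bool,
    (∀ n, x (2 * n + 1) = τ (pre x (2 * n + 1))) → x ∉ A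

/-- `A` is invariant under Turing equivalence. -/
def TuringInvariant (A : Set (ℕ → Bool)) : Prop :=
  ∀ x y : ℕ → Bool, TLE x y → TLE y x → x ∈ A → y ∈ A

/-- the `i`-th row of `x` -/
def row (x : ℕ → Bool) (i : ℕ) : ℕ → Bool := fun l => x (Nat.pair i l)

/-- The set of all `x` that compute a sequence `row L 0, row L 1, ...` whose terms are exactly the
elements of `C` that are computable from `x`. -/
def Lists (C : Set (ℕ → Bool)) : Set (ℕ → Bool) :=
  {x | ∃ L, TLE L x ∧ ∀ y, (y ∈ C ∧ TLE y x) ↔ ∃ i, row L i = y}

/-- `C` is Marczewski null: every nonempty perfect set has a nonempty perfect subset that is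
disjoint from `C`. -/
def MarczewskiNull (C : Set (ℕ → Bool)) : Prop :=
  ∀ Q : Set (ℕ → Bool), Perfect Q → Q.Nonempty →
    ∃ Q' ⊆ Q, Perfect Q' ∧ Q'.Nonempty ∧ Disjoint Q' C

end Pool.Agent.Helper25TD
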