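import Mathlib
import Pool.Agent.Helper25_TD.Defs

/-!
Codes for oracle computations and the use principle, for oracles that are elements of Cantor space
(copied from the file of helper56, Pool.Agent.Helper56_TD.Codes).
-/

set_option autoImplicit false

namespace Pool.Agent.Helper25TD

/-- codes for functionals -/
inductive OCode : Type
  | zero : OCode
  | succ : OCode
  | left : OCode
  | right : OCode
  | oracle : OCode
  | pair : OCode → OCode → OCode
  | comp : OCode → OCode → OCode
  | prec : OCode → OCode → OCode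
  | rfind : OCode → OCode
  deriving Countable

/-- evaluation of codes with oracle `g` -/
def eval (g : ℕ →. ℕ) : OCode → ℕ →. ℕ
  | OCode.zero => fun _ => 0
  | OCode.succ => Nat.succ
  | OCode.left => fun n => (Nat.unpair n).1
  | OCode.right => fun n => (Nat.unpair n).2
  | OCode.oracle => g
  | OCode.pair f h => fun n =>
      (eval g f n).bind fun a => (eval g h n).map fun b => Nat.pair a b
  | OCode.comp f h => fun n => (eval g h n).bind fun a => eval g f a
  | OCode.prec f h => fun p =>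
      (Nat.unpair p).2.rec (eval g f (Nat.unpair p).1) fun y IH =>
        IH.bind fun i => eval g h (Nat.pair (Nat.unpair p).1 (Nat.pair y i))
  | OCode.rfind f => fun a =>
      Nat.rfind fun n => (eval g f (Nat.pair a n)).map fun m => decide (m = 0)

theorem exists_code {g f : ℕ →. ℕ} (h : Nat.RecursiveIn {g} f) : ∃ c, eval g c = f := by
  induction h with
  | zero => exact ⟨OCode.zero, rfl⟩
  | succ => exact ⟨OCode.succ, rfl⟩
  | left => exact ⟨OCode.left, rfl⟩
  | right => exact ⟨OCode.right, rfl⟩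
  | oracle g' hg' =>
    rw [Set.mem_singleton_iff] at hg'
    subst hg'
    exact ⟨OCode.oracle, rfl⟩
  | pair _ _ ihf ihh =>
    obtain ⟨c, rfl⟩ := ihf
    obtain ⟨d, rfl⟩ := ihh
    refine ⟨OCode.pair c d, ?_⟩
    funext n
    simp only [eval, Seq.seq, Part.map_eq_map, Part.bind_map]
  | comp _ _ ihf ihh =>
    obtain ⟨c, rfl⟩ := ihf
    obtain ⟨d, rfl⟩ := ihh
    exact ⟨OCode.comp c d, rfl⟩
  | prec _ _ ihf ihh =>
    obtain ⟨c, rfl⟩ := ihf
    obtain ⟨d, rfl⟩ := ihh
    exact ⟨OCode.prec c d, rfl⟩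
  | rfind _ ihf =>
    obtain ⟨c, rfl⟩ := ihf
    exact ⟨OCode.rfind c, rfl⟩

/-- The use principle. -/
theorem use_principle (x : ℕ → Bool) (c : OCode) : ∀ n v, v ∈ eval (chi x) c n →
    ∃ N, ∀ y : ℕ → Bool, (∀ i < N, y i = x i) → v ∈ eval (chi y) c n := by
  induction c with
  | zero => exact fun n v h => ⟨0, fun y _ => h⟩
  | succ => exact fun n v h => ⟨0, fun y _ => h⟩
  | left => exact fun n v h => ⟨0, fun y _ => h⟩
  | right => exact fun n v h => ⟨0, fun y _ => h⟩
  | oracle =>
    intro n v h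
    refine ⟨n + 1, fun y hy => ?_⟩
    simp only [eval, chi] at h ⊢
    rw [hy n (Nat.lt_succ_self n)]
    exact h
  | pair f h ihf ihh =>
    intro n v hv
    simp only [eval, Part.mem_bind_iff, Part.mem_map_iff] at hv ⊢
    obtain ⟨a, ha, b, hb, rfl⟩ := hv
    obtain ⟨N1, h1⟩ := ihf n a ha
    obtain ⟨N2, h2⟩ := ihh n b hb
    exact ⟨max N1 N2, fun y hy =>
      ⟨a, h1 y fun i hi => hy i (lt_of_lt_of_le hi (le_max_left _ _)),
      b, h2 y fun i hi => hy i (lt_of_lt_of_le hi (le_max_right _ _)), rfl⟩⟩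
  | comp f h ihf ihh =>
    intro n v hv
    simp only [eval, Part.mem_bind_iff] at hv ⊢
    obtain ⟨a, ha, hb⟩ := hv
    obtain ⟨N1, h1⟩ := ihh n a ha
    obtain ⟨N2, h2⟩ := ihf a v hb
    exact ⟨max N1 N2, fun y hy =>
      ⟨a, h1 y fun i hi => hy i (lt_of_lt_of_le hi (le_max_left _ _)),
      h2 y fun i hi => hy i (lt_of_lt_of_le hi (le_max_right _ _))⟩⟩
  | prec f h ihf ihh =>
    intro p
    simp only [eval]
    generalize (Nat.unpair p).1 = a
    generalize (Nat.unpair p).2 = n
    induction n with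
    | zero =>
      intro v hv
      exact ihf a v hv
    | succ n ih =>
      intro v hv
      simp only [Part.mem_bind_iff] at hv ⊢
      obtain ⟨b, hb, hc⟩ := hv
      obtain ⟨N1, h1⟩ := ih b hb
      obtain ⟨N2, h2⟩ := ihh _ v hc
      exact ⟨max N1 N2, fun y hy =>
        ⟨b, h1 y fun i hi => hy i (lt_of_lt_of_le hi (le_max_left _ _)),
        h2 y fun i hi => hy i (lt_of_lt_of_le hi (le_max_right _ _))⟩⟩
  | rfind f ihf =>
    intro a v hv
    have key : ∀ (y : ℕ → Bool) (j : ℕ) (b : Bool),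
        b ∈ (fun n => (eval (chi y) f (Nat.pair a n)).map fun m => decide (m = 0)) j ↔
          ∃ m, m ∈ eval (chi y) f (Nat.pair a j) ∧ decide (m = 0) = b := by
      intro y j b
      exact Part.mem_map_iff _
    change v ∈ Nat.rfind fun n => (eval (chi x) f (Nat.pair a n)).map fun m => decide (m = 0) at hv
    obtain ⟨h1, hlt⟩ := Nat.mem_rfind.mp hv
    obtain ⟨m, hm, hm0⟩ := (key x v true).mp h1
    obtain ⟨N1, hN1⟩ := ihf _ m hm
    have h2 : ∀ k, k ≤ v → ∃ N, ∀ y : ℕ → Bool, (∀ i < N, y i = x i) → ∀ j < k,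
        false ∈ (fun n => (eval (chi y) f (Nat.pair a n)).map fun m => decide (m = 0)) j := by
      intro k
      induction k with
      | zero => exact fun _ => ⟨0, fun y _ j hj => absurd hj (Nat.not_lt_zero j)⟩
      | succ k ihk =>
        intro hk
        obtain ⟨N, hN⟩ := ihk (Nat.le_of_succ_le hk)
        obtain ⟨b, hb, hb0⟩ := (key x k false).mp (hlt hk)
        obtain ⟨N', hN'⟩ := ihf _ b hb
        refine ⟨max N N', fun y hy j hj => ?_⟩
        rcases Nat.lt_succ_iff_lt_or_eq.mp hj with hj | rfl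
        · exact hN y (fun i hi => hy i (lt_of_lt_of_le hi (le_max_left _ _))) j hj
        · exact (key y j false).mpr
            ⟨b, hN' y fun i hi => hy i (lt_of_lt_of_le hi (le_max_right _ _)), hb0⟩
    obtain ⟨N2, hN2⟩ := h2 v le_rfl
    refine ⟨max N1 N2, fun y hy => ?_⟩
    change v ∈ Nat.rfind fun n => (eval (chi y) f (Nat.pair a n)).map fun m => decide (m = 0)
    refine Nat.mem_rfind.mpr ⟨(key y v true).mpr
      ⟨m, hN1 y fun i hi => hy i (lt_of_lt_of_le hi (le_max_left _ _)), hm0⟩, fun {j} hj => ?_⟩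
    exact hN2 y (fun i hi => hy i (lt_of_lt_of_le hi (le_max_right _ _))) j hj

end Pool.Agent.Helper25TD
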