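import Mathlib
import Pool.Agent.Helper25_TD.Defs

/-!
# Selecting a point from a decreasing sequence of perfect sets
-/

set_option autoImplicit false

namespace Pool.Agent.Helper25TD

open Topology Set

theorem exists_cyl {α : ℕ → Bool} {U : Set (ℕ → Bool)} (hU : IsOpen U) (h : α ∈ U) :
    ∃ n, ∀ β : ℕ → Bool, (∀ j < n, β j = α j) → β ∈ U := by
  have h1 := (PiNat.isTopologicalBasis_cylinders (fun _ : ℕ => Bool)).exists_subset_of_mem_open h hU
  obtain ⟨s, ⟨x, n, rfl⟩, h2, h3⟩ := h1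
  refine ⟨n, fun β hβ => h3 ?_⟩
  rw [PiNat.mem_cylinder_iff] at h2 ⊢
  intro i hi
  rw [hβ i hi, h2 i hi]

theorem isOpen_cyl (α : ℕ → Bool) (n : ℕ) : IsOpen {β : ℕ → Bool | ∀ j < n, β j = α j} := by
  have : {β : ℕ → Bool | ∀ j < n, β j = α j} = ⋂ j ∈ Finset.range n, {β | β j = α j} := by
    ext β
    simp
  rw [this]
  refine isOpen_biInter_finset fun j _ => ?_
  exact (isOpen_discrete {α j}).preimage (continuous_apply j : Continuous fun β : ℕ → Bool => β j)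

theorem isClosed_cyl (α : ℕ → Bool) (n : ℕ) : IsClosed {β : ℕ → Bool | ∀ j < n, β j = α j} := by
  have : {β : ℕ → Bool | ∀ j < n, β j = α j} = ⋂ j ∈ Finset.range n, {β | β j = α j} := by
    ext β
    simp
  rw [this]
  refine isClosed_biInter fun j _ => ?_
  exact (isClosed_discrete {α j}).preimage
    (continuous_apply j : Continuous fun β : ℕ → Bool => β j)

theorem perfect_cyl {Q : Set (ℕ → Bool)} (hQ : Perfect Q) (α : ℕ → Bool) (n : ℕ) :
    Perfect ({β : ℕ → Bool | ∀ j < n, β j = α j} ∩ Q) :=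
  ⟨(isClosed_cyl α n).inter hQ.closed, hQ.acc.open_inter (isOpen_cyl α n)⟩

theorem exists_ne_of_perfect {Q : Set (ℕ → Bool)} (hQ : Perfect Q) {α : ℕ → Bool} (h : α ∈ Q) :
    ∃ β ∈ Q, β ≠ α := by
  obtain ⟨y, hy, hy'⟩ := (preperfect_iff_nhds.1 hQ.acc) α h Set.univ Filter.univ_mem
  exact ⟨y, hy.2, hy'⟩

theorem exists_const {Q : Set (ℕ → Bool)} (hQ : Perfect Q) (hne : Q.Nonempty)
    {H : (ℕ → Bool) → (ℕ → Bool)} (hH : Continuous H) (hc : (H '' Q).Countable) :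
    ∃ α ∈ Q, ∃ n, ∀ β ∈ Q, (∀ j < n, β j = α j) → H β = H α := by
  have hcomp : CompactSpace Q := isCompact_iff_compactSpace.1 hQ.closed.isCompact
  have hne' : Nonempty Q := hne.to_subtype
  have hcount : Countable (H '' Q) := hc.to_subtype
  obtain ⟨y, q, hq⟩ := nonempty_interior_of_iUnion_of_closed (X := Q) (ι := (H '' Q))
    (f := fun y => {q : Q | H q = y}) (fun y => isClosed_eq (hH.comp continuous_subtype_val)
      continuous_const) (by
        ext q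
        simp only [mem_iUnion, mem_univ, iff_true]
        exact ⟨⟨H q, q, q.2, rfl⟩, rfl⟩)
  rw [mem_interior] at hq
  obtain ⟨t, ht, hto, hqt⟩ := hq
  rw [isOpen_induced_iff] at hto
  obtain ⟨U, hU, rfl⟩ := hto
  obtain ⟨n, hn⟩ := exists_cyl hU hqt
  have h1 : H q = y := ht hqt
  refine ⟨q, q.2, n, fun β hβ h => ?_⟩
  have h2 : (⟨β, hβ⟩ : Q) ∈ {q : Q | H q = y} := ht (hn β h)
  rw [h1]
  exact h2

theorem perfect_not_countable {Q : Set (ℕ → Bool)} (hQ : Perfect Q) (hne : Q.Nonempty) :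
    ¬ Q.Countable := by
  intro hc
  obtain ⟨α, hα, n, hn⟩ := exists_const hQ hne continuous_id (by simpa using hc)
  have h1 := perfect_cyl hQ α n
  obtain ⟨β, hβ, hne⟩ := exists_ne_of_perfect h1 (α := α) ⟨fun _ _ => rfl, hα⟩
  exact hne (hn β hβ.2 hβ.1)

theorem select_step {C : Set (ℕ → Bool)} (hC : MarczewskiNull C)
    {E : Set (ℕ → Bool)} (hE : IsClosed E)
    {H : (ℕ → Bool) → (ℕ → Bool)} (hH : Continuous H)
    {N : Set (ℕ → Bool)}
    (hN : ∀ α β, α ≠ β → α ∈ E → β ∈ E → H α = H β → α ∈ N)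
    {Q : Set (ℕ → Bool)} (hQ : Perfect Q) (hne : Q.Nonempty) :
    ∃ Q' ⊆ Q, Perfect Q' ∧ Q'.Nonempty ∧ ∀ α ∈ Q', α ∈ E → H α ∈ C → α ∈ N := by
  by_cases hQE : Q ⊆ E
  swap
  · obtain ⟨α, hα, hαE⟩ := Set.not_subset.1 hQE
    obtain ⟨n, hn⟩ := exists_cyl hE.isOpen_compl hαE
    exact ⟨_, inter_subset_right, perfect_cyl hQ α n, ⟨α, fun _ _ => rfl, hα⟩,
      fun β hβ hβE => absurd hβE (hn β hβ.1)⟩
  by_cases hc : (H '' Q).Countable
  · obtain ⟨α, hα, n, hn⟩ := exists_const hQ hne hH hc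
    refine ⟨_, inter_subset_right, perfect_cyl hQ α n, ⟨α, fun _ _ => rfl, hα⟩,
      fun β hβ hβE _ => ?_⟩
    obtain ⟨γ, hγ, hγne⟩ := exists_ne_of_perfect (perfect_cyl hQ α n) hβ
    refine hN β γ hγne.symm hβE (hQE hγ.2) ?_
    rw [hn β hβ.2 hβ.1, hn γ hγ.2 hγ.1]
  · have hcl : IsClosed (H '' Q) := (hQ.closed.isCompact.image hH).isClosed
    obtain ⟨R, hR, hRne, hRs⟩ := exists_perfect_nonempty_of_isClosed_of_not_countable hcl hc
    obtain ⟨R', hR's, hR', hR'ne, hdis⟩ := hC R hR hRne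
    have hcl' : IsClosed (Q ∩ H ⁻¹' R') := hQ.closed.inter (hR'.closed.preimage hH)
    have himg : H '' (Q ∩ H ⁻¹' R') = R' := by
      ext y
      constructor
      · rintro ⟨x, hx, rfl⟩
        exact hx.2
      · intro hy
        obtain ⟨x, hx, rfl⟩ := hRs (hR's hy)
        exact ⟨x, ⟨hx, hy⟩, rfl⟩
    have hunc : ¬ (Q ∩ H ⁻¹' R').Countable := by
      intro h
      refine perfect_not_countable hR' hR'ne ?_
      rw [← himg]
      exact h.image H
    obtain ⟨Q', hQ', hQ'ne, hQ's⟩ := exists_perfect_nonempty_of_isClosed_of_not_countable hcl' hunc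
    refine ⟨Q', fun x hx => (hQ's hx).1, hQ', hQ'ne, fun α hα _ hαC => ?_⟩
    exact absurd hαC (Set.disjoint_left.1 hdis (hQ's hα).2)

theorem select {C : Set (ℕ → Bool)} (hC : MarczewskiNull C)
    (E : ℕ → Set (ℕ → Bool)) (hE : ∀ e, IsClosed (E e))
    (H : ℕ → (ℕ → Bool) → (ℕ → Bool)) (hH : ∀ e, Continuous (H e))
    (N : ℕ → Set (ℕ → Bool))
    (hN : ∀ e α β, α ≠ β → α ∈ E e → β ∈ E e → H e α = H e β → α ∈ N e) :
    ∃ α, ∀ e, α ∈ E e → H e α ∈ C → α ∈ N e := by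
  choose! st h1 h2 h3 h4 using fun (e : ℕ) (Q : Set (ℕ → Bool)) (hQ : Perfect Q)
    (hne : Q.Nonempty) => select_step hC (hE e) (hH e) (hN e) hQ hne
  let S : ℕ → Set (ℕ → Bool) := fun n => Nat.rec Set.univ (fun e Q => st e Q) n
  have hS : ∀ n, S (n + 1) = st n (S n) := fun n => rfl
  have hp : ∀ n, Perfect (S n) ∧ (S n).Nonempty := by
    intro n
    induction n with
    | zero =>
      refine ⟨⟨isClosed_univ, ?_⟩, Set.univ_nonempty⟩
      rw [preperfect_iff_nhds]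
      intro x _ U hU
      obtain ⟨V, hVU, hV, hxV⟩ := mem_nhds_iff.1 hU
      obtain ⟨n, hn⟩ := exists_cyl hV hxV
      refine ⟨Function.update x n (!x n), ⟨hVU (hn _ fun j hj => ?_), Set.mem_univ _⟩, fun h => ?_⟩
      · rw [Function.update_of_ne hj.ne]
      · have := congrFun h n
        rw [Function.update_self] at this
        cases hx : x n <;> simp [hx] at this
    | succ n ih => exact ⟨h2 n _ ih.1 ih.2, h3 n _ ih.1 ih.2⟩
  obtain ⟨α, hα⟩ := IsCompact.nonempty_iInter_of_sequence_nonempty_isCompact_isClosed S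
    (fun n => by rw [hS]; exact h1 n _ (hp n).1 (hp n).2) (fun n => (hp n).2)
    (hp 0).1.closed.isCompact (fun n => (hp n).1.closed)
  refine ⟨α, fun e => ?_⟩
  have : α ∈ S (e + 1) := Set.mem_iInter.1 hα (e + 1)
  rw [hS] at this
  exact h4 e _ (hp e).1 (hp e).2 α this

/-- the property of `C` given by the previous theorem -/
def Selective (C : Set (ℕ → Bool)) : Prop :=
  ∀ (E : ℕ → Set (ℕ → Bool)) (_ : ∀ e, IsClosed (E e))
    (H : ℕ → (ℕ → Bool) → (ℕ → Bool)) (_ : ∀ e, Continuous (H e))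
    (N : ℕ → Set (ℕ → Bool))
    (_ : ∀ e α β, α ≠ β → α ∈ E e → β ∈ E e → H e α = H e β → α ∈ N e),
    ∃ α, ∀ e, α ∈ E e → H e α ∈ C → α ∈ N e

end Pool.Agent.Helper25TD
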