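import Mathlib
import Pool.Agent.Helper25_TD.Codes
import Pool.Agent.Helper25_TD.Select

/-!
# Functionals, plays and joins
-/

set_option autoImplicit false

namespace Pool.Agent.Helper25TD

open Topology Set

/-- the set of oracles `x` for which the functional `c` has value `b` at `l` -/
def U (c : OCode) (l : ℕ) (b : Bool) : Set (ℕ → Bool) := {x | b.toNat ∈ eval (chi x) c l}

theorem isOpen_U (c : OCode) (l : ℕ) (b : Bool) : IsOpen (U c l b) := by
  rw [isOpen_iff_forall_mem_open]
  intro x hx
  obtain ⟨N, hN⟩ := use_principle x c l _ hx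
  exact ⟨{β | ∀ j < N, β j = x j}, fun y hy => hN y hy, isOpen_cyl x N, fun _ _ => rfl⟩

theorem disjoint_U (c : OCode) (l : ℕ) (x : ℕ → Bool) : ¬ (x ∈ U c l true ∧ x ∈ U c l false) := by
  rintro ⟨h1, h2⟩
  have := Part.mem_unique h1 h2
  simp at this

theorem exists_U {x y : ℕ → Bool} (h : TLE y x) : ∃ c, ∀ l, x ∈ U c l (y l) := by
  obtain ⟨c, hc⟩ := exists_code (RecursiveIn.iff_nat.1 h)
  refine ⟨c, fun l => ?_⟩
  change (y l).toNat ∈ eval (chi x) c l
  rw [hc]
  exact Part.mem_some _

theorem TLE.refl (x : ℕ → Bool) : TLE x x := RecursiveIn.oracle _ (Set.mem_singleton _)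

theorem TLE.trans {x y z : ℕ → Bool} (h1 : TLE x y) (h2 : TLE y z) : TLE x z := by
  refine RecursiveIn.subst h1 ?_
  rintro g hg
  rw [Set.mem_singleton_iff] at hg
  subst hg
  exact h2

theorem TLE.sub {x : ℕ → Bool} {f : ℕ → ℕ} (hf : Primrec f) : TLE (fun n => x (f n)) x := by
  refine RecursiveIn.iff_nat.2 ?_
  have h1 : Nat.RecursiveIn {chi x} (fun n => (f n : Part ℕ)) :=
    Nat.Primrec.recursiveIn (Primrec.nat_iff.1 hf)
  have h2 : Nat.RecursiveIn {chi x} (chi x) := Nat.RecursiveIn.oracle _ (Set.mem_singleton _)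
  refine (h2.comp h1).of_eq fun n => ?_
  exact Part.bind_some (f n) (chi x)

/-! ### joins -/

/-- the join of a sequence of elements of Cantor space -/
def jn (h : ℕ → (ℕ → Bool)) : ℕ → Bool := fun n => h (Nat.unpair n).1 (Nat.unpair n).2

theorem row_jn (h : ℕ → (ℕ → Bool)) (i : ℕ) : row (jn h) i = h i := by
  funext l
  simp [row, jn]

theorem jn_congr {h h' : ℕ → (ℕ → Bool)} {N : ℕ} (H : ∀ j < N, h j = h' j) {n : ℕ} (hn : n < N) :
    jn h n = jn h' n := by
  unfold jn
  rw [H _ ((Nat.unpair_left_le n).trans_lt hn)]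

theorem continuous_jn : Continuous jn := by
  refine continuous_pi fun n => ?_
  exact (continuous_apply (Nat.unpair n).2).comp (continuous_apply (Nat.unpair n).1)

/-! ### plays -/

/-- positions of the play in which the strategy `s` moves at the stages congruent to `r` modulo `2`
and the bits of `y` are played at the other stages -/
def pos (r : ℕ) (s : List Bool → Bool) (y : ℕ → Bool) : ℕ → List Bool
  | 0 => []
  | n + 1 => pos r s y n ++ [if n % 2 = r then s (pos r s y n) else y (n / 2)]

/-- the play -/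
def play (r : ℕ) (s : List Bool → Bool) (y : ℕ → Bool) : ℕ → Bool :=
  fun n => if n % 2 = r then s (pos r s y n) else y (n / 2)

theorem pre_succ (x : ℕ → Bool) (n : ℕ) : pre x (n + 1) = pre x n ++ [x n] := by
  simp [pre, List.range_succ]

theorem pre_play (r : ℕ) (s : List Bool → Bool) (y : ℕ → Bool) (n : ℕ) :
    pre (play r s y) n = pos r s y n := by
  induction n with
  | zero => rfl
  | succ n ih =>
    rw [pre_succ, ih]
    rfl

theorem play_eq (r : ℕ) (s : List Bool → Bool) (y : ℕ → Bool) {n : ℕ} (h : n % 2 = r) :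
    play r s y n = s (pre (play r s y) n) := by
  rw [pre_play]
  exact if_pos h

theorem play_ne (r : ℕ) (s : List Bool → Bool) (y : ℕ → Bool) {n : ℕ} (h : n % 2 ≠ r) :
    play r s y n = y (n / 2) := if_neg h

theorem pos_congr (r : ℕ) (s : List Bool → Bool) {y y' : ℕ → Bool} {n : ℕ}
    (h : ∀ j < n, y j = y' j) : pos r s y n = pos r s y' n := by
  induction n with
  | zero => rfl
  | succ n ih =>
    simp only [pos]
    rw [ih fun j hj => h j (hj.trans (Nat.lt_succ_self n)),
      h (n / 2) (lt_of_le_of_lt (Nat.div_le_self n 2) (Nat.lt_succ_self n))]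

theorem play_congr (r : ℕ) (s : List Bool → Bool) {y y' : ℕ → Bool} {n : ℕ}
    (h : ∀ j < n + 1, y j = y' j) : play r s y n = play r s y' n := by
  unfold play
  rw [pos_congr r s fun j hj => h j (hj.trans (Nat.lt_succ_self n)),
    h (n / 2) (lt_of_le_of_lt (Nat.div_le_self n 2) (Nat.lt_succ_self n))]

theorem continuous_play (r : ℕ) (s : List Bool → Bool) : Continuous (play r s) := by
  refine continuous_pi fun n => ?_
  have h1 : Continuous fun u : Fin (n + 1) → Bool =>
      play r s (fun j => if h : j < n + 1 then u ⟨j, h⟩ else false) n :=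
    continuous_of_discreteTopology
  have h2 : Continuous fun y : ℕ → Bool => (fun i : Fin (n + 1) => y i) :=
    continuous_pi fun i => continuous_apply (i : ℕ)
  refine (h1.comp h2).congr fun y => ?_
  refine play_congr r s fun j hj => ?_
  rw [dif_pos hj]

end Pool.Agent.Helper25TD
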