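import Mathlib
import Pool.Agent.Helper25_TD.Functional

/-!
# Total functions computable from an oracle; reading values from a table of finite strings
-/

set_option autoImplicit false

namespace Pool.Agent.Helper25TD

open Topology Set

/-- the total number function `f` is computable from `x` -/
def TR (x : ℕ → Bool) (f : ℕ → ℕ) : Prop := Nat.RecursiveIn {chi x} (fun n => (f n : Part ℕ))

theorem TR.prim {x : ℕ → Bool} {f : ℕ → ℕ} (hf : Primrec f) : TR x f :=
  Nat.Primrec.recursiveIn (Primrec.nat_iff.1 hf)

theorem TR.comp {x : ℕ → Bool} {f g : ℕ → ℕ} (hf : TR x f) (hg : TR x g) :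
    TR x fun n => f (g n) := by
  refine (Nat.RecursiveIn.comp hf hg).of_eq fun n => ?_
  exact Part.bind_some (g n) _

theorem TR.pair {x : ℕ → Bool} {f g : ℕ → ℕ} (hf : TR x f) (hg : TR x g) :
    TR x fun n => Nat.pair (f n) (g n) := by
  refine (Nat.RecursiveIn.pair hf hg).of_eq fun n => ?_
  simp [Seq.seq]

theorem TR.prec {x : ℕ → Bool} {f g : ℕ → ℕ} (hf : TR x f) (hg : TR x g) :
    TR x fun p => Nat.rec (f (Nat.unpair p).1)
      (fun y i => g (Nat.pair (Nat.unpair p).1 (Nat.pair y i))) (Nat.unpair p).2 := by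
  refine (Nat.RecursiveIn.prec hf hg).of_eq fun p => ?_
  simp only
  generalize (Nat.unpair p).1 = a
  generalize (Nat.unpair p).2 = n
  induction n with
  | zero => rfl
  | succ n ih =>
    change (Nat.rec _ _ n : Part ℕ) >>= _ = _
    rw [ih]
    exact Part.bind_some _ _

theorem TR.rfind {x : ℕ → Bool} {f g : ℕ → ℕ} (hf : TR x f)
    (hg : ∀ a, f (Nat.pair a (g a)) = 0) (hg' : ∀ a, ∀ n < g a, f (Nat.pair a n) ≠ 0) :
    TR x g := by
  refine (Nat.RecursiveIn.rfind hf).of_eq_tot fun a => ?_
  refine Nat.mem_rfind.2 ⟨?_, fun {m} hm => ?_⟩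
  · simp [hg a]
  · simp [hg' a m hm]

theorem TR.of_le {x y : ℕ → Bool} (h : TLE y x) : TR x fun n => (y n).toNat := by
  exact RecursiveIn.iff_nat.1 h

theorem TR.to_le {x y : ℕ → Bool} (h : TR x fun n => (y n).toNat) : TLE y x :=
  RecursiveIn.iff_nat.2 h

/-- code of the first `n` bits of `x` -/
def code (x : ℕ → Bool) (n : ℕ) : ℕ := Nat.rec 1 (fun k i => 2 * i + (x k).toNat) n

theorem code_succ (x : ℕ → Bool) (n : ℕ) : code x (n + 1) = 2 * code x n + (x n).toNat := rfl

theorem code_pos (x : ℕ → Bool) (n : ℕ) : 0 < code x n := by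
  induction n with
  | zero => exact Nat.one_pos
  | succ n ih =>
    rw [code_succ]
    omega

theorem code_inj {x y : ℕ → Bool} {n m : ℕ} (h : code x n = code y m) :
    n = m ∧ ∀ j < n, x j = y j := by
  induction n generalizing m with
  | zero =>
    cases m with
    | zero => exact ⟨rfl, fun j hj => absurd hj (Nat.not_lt_zero j)⟩
    | succ m =>
      exfalso
      rw [code_succ] at h
      have := code_pos y m
      change 1 = _ at h
      omega
  | succ n ih =>
    cases m with
    | zero =>
      exfalso
      rw [code_succ] at h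
      have := code_pos x n
      change _ = 1 at h
      omega
    | succ m =>
      rw [code_succ, code_succ] at h
      have h1 : code x n = code y m := by
        cases h1 : x n <;> cases h2 : y m <;> simp [h1, h2] at h <;> omega
      obtain ⟨rfl, h2⟩ := ih h1
      refine ⟨rfl, fun j hj => ?_⟩
      rcases Nat.lt_succ_iff_lt_or_eq.1 hj with hj | rfl
      · exact h2 j hj
      · rw [h1] at h
        cases h1 : x j <;> cases h2 : y j <;> simp [h1, h2] at h <;> rfl

theorem code_congr {x y : ℕ → Bool} {n : ℕ} (h : ∀ j < n, x j = y j) : code x n = code y n := by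
  induction n with
  | zero => rfl
  | succ n ih =>
    rw [code_succ, code_succ, ih fun j hj => h j (hj.trans (Nat.lt_succ_self n)),
      h n (Nat.lt_succ_self n)]

theorem TR.code {x J : ℕ → Bool} (h : TLE x J) : TR J (code x) := by
  have h1 : TR J fun m => 2 * (Nat.unpair (Nat.unpair m).2).2 +
      (x (Nat.unpair (Nat.unpair m).2).1).toNat := by
    have h2 : TR J fun m => (x (Nat.unpair (Nat.unpair m).2).1).toNat :=
      (TR.of_le h).comp (TR.prim (Primrec.fst.comp (Primrec.unpair.comp
        (Primrec.snd.comp Primrec.unpair))))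
    have h3 : TR J fun m => 2 * (Nat.unpair (Nat.unpair m).2).2 :=
      TR.prim (Primrec.nat_mul.comp (Primrec.const 2) (Primrec.snd.comp (Primrec.unpair.comp
        (Primrec.snd.comp Primrec.unpair))))
    have h4 : TR J fun n => (Nat.unpair n).1 + (Nat.unpair n).2 :=
      TR.prim (Primrec.nat_add.comp (Primrec.fst.comp Primrec.unpair)
        (Primrec.snd.comp Primrec.unpair))
    have h5 := h4.comp (h3.pair h2)
    simpa using h5
  have h2 := (TR.prec (TR.prim (Primrec.const 1)) h1).comp
    (TR.prim (Primrec₂.natPair.comp (Primrec.const 0) Primrec.id))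
  simp only [Nat.unpair_pair, id] at h2
  exact h2

/-- reading a function value from a table -/
theorem TLE.of_table {x y J z1 z2 : ℕ → Bool} (hx : TLE x J) (h1 : TLE z1 J) (h2 : TLE z2 J)
    (hex : ∀ l, ∃ n, z1 (Nat.pair (code x n) l) = true)
    (hval : ∀ l n, z1 (Nat.pair (code x n) l) = true → z2 (Nat.pair (code x n) l) = y l) :
    TLE y J := by
  classical
  let g : ℕ → ℕ := fun l => Nat.find (hex l)
  have hcode := TR.code hx
  have hP : ∀ (z : ℕ → Bool), TLE z J →
      TR J fun m => (z (Nat.pair (code x (Nat.unpair m).2) (Nat.unpair m).1)).toNat := by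
    intro z hz
    have h3 : TR J fun m => code x (Nat.unpair m).2 :=
      hcode.comp (TR.prim (Primrec.snd.comp Primrec.unpair))
    exact (TR.of_le hz).comp (h3.pair (TR.prim (Primrec.fst.comp Primrec.unpair)))
  have hg : TR J g := by
    refine TR.rfind (f := fun m =>
      1 - (z1 (Nat.pair (code x (Nat.unpair m).2) (Nat.unpair m).1)).toNat) ?_ ?_ ?_
    · have h3 : TR J fun n => 1 - n :=
        TR.prim (Primrec.nat_sub.comp (Primrec.const 1) Primrec.id)
      exact h3.comp (hP z1 h1)
    · intro a
      have h4 : z1 (Nat.pair (code x (g a)) a) = true := Nat.find_spec (hex a)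
      simp [h4]
    · intro a n hn
      have h4 := Nat.find_min (hex a) hn
      rw [Bool.not_eq_true] at h4
      simp [h4]
  refine TR.to_le ?_
  have h5 := (hP z2 h2).comp ((TR.prim Primrec.id).pair hg)
  refine Nat.RecursiveIn.of_eq h5 fun l => ?_
  simp only [Nat.unpair_pair, id]
  rw [hval l (g l) (Nat.find_spec (hex l))]

/-- the join of two elements of Cantor space -/
def join (x z : ℕ → Bool) : ℕ → Bool := fun n => if n % 2 = 0 then x (n / 2) else z (n / 2)

theorem TLE.join_left (x z : ℕ → Bool) : TLE x (join x z) := by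
  have h1 : Primrec fun n : ℕ => 2 * n := Primrec.nat_mul.comp (Primrec.const 2) Primrec.id
  have h2 := TLE.sub (x := join x z) h1
  have h3 : (fun n => join x z (2 * n)) = x := by
    funext n
    simp [join]
  rwa [h3] at h2

theorem TLE.join_right (x z : ℕ → Bool) : TLE z (join x z) := by
  have h1 : Primrec fun n : ℕ => 2 * n + 1 :=
    Primrec.nat_add.comp (Primrec.nat_mul.comp (Primrec.const 2) Primrec.id) (Primrec.const 1)
  have h2 := TLE.sub (x := join x z) h1
  have h3 : (fun n => join x z (2 * n + 1)) = z := by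
    funext n
    have h4 : (2 * n + 1) % 2 = 1 := by omega
    have h5 : (2 * n + 1) / 2 = n := by omega
    simp only [join, h4, h5]
    simp
  rwa [h3] at h2

theorem TLE.join {x z J : ℕ → Bool} (hx : TLE x J) (hz : TLE z J) :
    TLE (join x z) J := by
  refine TR.to_le ?_
  have hdiv : Primrec fun n : ℕ => n / 2 :=
    Primrec.nat_div.comp Primrec.id (Primrec.const 2)
  have h1 : TR J fun n => (x (n / 2)).toNat := (TR.of_le hx).comp (TR.prim hdiv)
  have h2 : TR J fun n => (z (n / 2)).toNat := (TR.of_le hz).comp (TR.prim hdiv)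
  have hsel : Primrec fun m : ℕ => if (Nat.unpair m).1 % 2 = 0 then
      (Nat.unpair (Nat.unpair m).2).1 else (Nat.unpair (Nat.unpair m).2).2 := by
    refine Primrec.ite ?_ ?_ ?_
    · exact Primrec.eq.comp (Primrec.nat_mod.comp (Primrec.fst.comp Primrec.unpair)
        (Primrec.const 2)) (Primrec.const 0)
    · exact Primrec.fst.comp (Primrec.unpair.comp (Primrec.snd.comp Primrec.unpair))
    · exact Primrec.snd.comp (Primrec.unpair.comp (Primrec.snd.comp Primrec.unpair))
  have h3 := (TR.prim (x := J) hsel).comp ((TR.prim Primrec.id).pair (h1.pair h2))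
  refine Nat.RecursiveIn.of_eq h3 fun n => ?_
  simp only [Nat.unpair_pair, id, Pool.Agent.Helper25TD.join]
  split_ifs <;> rfl

end Pool.Agent.Helper25TD
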