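import Mathlib

/-!
# Cantor schemes in preorders
-/

set_option autoImplicit false

namespace Pool.Agent.Helper25TD

section

variable {P : Type*} [Preorder P]

theorem refine_pairs (R : P → P → Prop) (hR : ∀ p q, ∃ p' ≤ p, ∃ q' ≤ q, R p' q')
    (hR' : ∀ p q p' q', R p q → p' ≤ p → q' ≤ q → R p' q') {ι : Type*} [DecidableEq ι]
    (S : Finset (ι × ι)) (O : ι → P) :
    ∃ O' : ι → P, (∀ i, O' i ≤ O i) ∧ ∀ x ∈ S, x.1 ≠ x.2 → R (O' x.1) (O' x.2) := by
  induction S using Finset.induction_on with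
  | empty => exact ⟨O, fun i => le_rfl, fun x hx => absurd hx (Finset.notMem_empty x)⟩
  | insert a S ha ih =>
    obtain ⟨O', h1, h2⟩ := ih
    by_cases hne : a.1 = a.2
    · refine ⟨O', h1, fun x hx hx' => ?_⟩
      rcases Finset.mem_insert.1 hx with rfl | hx
      · exact absurd hne hx'
      · exact h2 x hx hx'
    obtain ⟨p', hp', q', hq', hr⟩ := hR (O' a.1) (O' a.2)
    let O'' : ι → P := Function.update (Function.update O' a.1 p') a.2 q'
    have h3 : ∀ i, O'' i ≤ O' i := by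
      intro i
      by_cases h4 : i = a.2
      · subst h4
        simpa [O''] using hq'
      · by_cases h5 : i = a.1
        · subst h5
          simpa [O'', h4] using hp'
        · simp [O'', h4, h5]
    have h6 : O'' a.1 = p' := by simp [O'', hne]
    have h7 : O'' a.2 = q' := by simp [O'']
    refine ⟨O'', fun i => (h3 i).trans (h1 i), fun x hx hx' => ?_⟩
    rcases Finset.mem_insert.1 hx with rfl | hx
    · rw [h6, h7]
      exact hr
    · exact hR' _ _ _ _ (h2 x hx hx') (h3 _) (h3 _)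

theorem refine_all (D : ℕ → Set P)
    (hD : ∀ n p, ∃ q ≤ p, q ∈ D n) (hD' : ∀ n p q, p ∈ D n → q ≤ p → q ∈ D n)
    (R : ℕ → P → P → Prop) (hR : ∀ n p q, ∃ p' ≤ p, ∃ q' ≤ q, R n p' q')
    (hR' : ∀ n p q p' q', R n p q → p' ≤ p → q' ≤ q → R n p' q') {ι : Type*} [Finite ι]
    (n : ℕ) (O : ι → P) :
    ∃ O' : ι → P, (∀ i, O' i ≤ O i) ∧ (∀ m < n, ∀ i, O' i ∈ D m) ∧
      ∀ m < n, ∀ i j, i ≠ j → R m (O' i) (O' j) := by
  classical
  have := Fintype.ofFinite ι
  induction n with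
  | zero => exact ⟨O, fun i => le_rfl, fun m hm => absurd hm (Nat.not_lt_zero m),
      fun m hm => absurd hm (Nat.not_lt_zero m)⟩
  | succ n ih =>
    obtain ⟨O1, h1, h2, h3⟩ := ih
    choose O2 h4 h5 using fun i => hD n (O1 i)
    obtain ⟨O3, h6, h7⟩ := refine_pairs (R n) (hR n) (hR' n) (Finset.univ : Finset (ι × ι)) O2
    refine ⟨O3, fun i => ((h6 i).trans (h4 i)).trans (h1 i), fun m hm i => ?_, fun m hm i j hij => ?_⟩
    · rcases Nat.lt_succ_iff_lt_or_eq.1 hm with hm | rfl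
      · exact hD' m _ _ (h2 m hm i) ((h6 i).trans (h4 i))
      · exact hD' m _ _ (h5 i) (h6 i)
    · rcases Nat.lt_succ_iff_lt_or_eq.1 hm with hm | rfl
      · exact hR' m _ _ _ _ (h3 m hm i j hij) ((h6 i).trans (h4 i)) ((h6 j).trans (h4 j))
      · exact h7 (i, j) (Finset.mem_univ _) hij

/-- The basic construction of Cantor schemes. -/
theorem scheme (p0 : P) (D : ℕ → Set P)
    (hD : ∀ n p, ∃ q ≤ p, q ∈ D n) (hD' : ∀ n p q, p ∈ D n → q ≤ p → q ∈ D n)
    (R : ℕ → P → P → Prop) (hR : ∀ n p q, ∃ p' ≤ p, ∃ q' ≤ q, R n p' q')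
    (hR' : ∀ n p q p' q', R n p q → p' ≤ p → q' ≤ q → R n p' q') :
    ∃ F : (n : ℕ) → (Fin n → Bool) → P,
      (∀ n u, F (n + 1) u ≤ F n (fun i => u i.castSucc)) ∧
      (∀ n u, ∀ m < n, F n u ∈ D m) ∧ (∀ n u v, u ≠ v → ∀ m < n, R m (F n u) (F n v)) := by
  choose ref h1 h2 h3 using fun (n : ℕ) (O : (Fin n → Bool) → P) =>
    refine_all D hD hD' R hR hR' n O
  let F : (n : ℕ) → (Fin n → Bool) → P := fun n => Nat.rec (fun _ => p0)
    (fun n f => ref (n + 1) (fun u => f (fun i => u i.castSucc))) n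
  have hF : ∀ n, F (n + 1) = ref (n + 1) (fun u => F n (fun i => u i.castSucc)) := fun n => rfl
  refine ⟨F, fun n u => ?_, fun n u m hm => ?_, fun n u v huv m hm => ?_⟩
  · rw [hF]
    exact h1 _ _ _
  · cases n with
    | zero => exact absurd hm (Nat.not_lt_zero m)
    | succ n =>
      rw [hF]
      exact h2 _ _ m hm u
  · cases n with
    | zero => exact absurd hm (Nat.not_lt_zero m)
    | succ n =>
      rw [hF]
      exact h3 _ _ m hm u v huv

end

/-- restriction of an infinite sequence of bits -/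
def res (α : ℕ → Bool) (n : ℕ) : Fin n → Bool := fun i => α i

theorem res_succ (α : ℕ → Bool) (n : ℕ) : (fun i : Fin n => res α (n + 1) i.castSucc) = res α n :=
  rfl

theorem res_ne {α β : ℕ → Bool} {j n : ℕ} (h : α j ≠ β j) (hn : j < n) : res α n ≠ res β n :=
  fun h1 => h (congrFun h1 ⟨j, hn⟩)

theorem res_eq {α β : ℕ → Bool} {n : ℕ} (h : ∀ j < n, α j = β j) : res α n = res β n := by
  funext i
  exact h i i.2

/-- conditions: finite initial segments of sequences, presented by a length and a sequence -/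
@[ext] structure Cond (A : Type*) where
  len : ℕ
  seq : ℕ → A

instance (A : Type*) : Preorder (Cond A) where
  le q p := p.len ≤ q.len ∧ ∀ j < p.len, q.seq j = p.seq j
  le_refl p := ⟨le_rfl, fun j _ => rfl⟩
  le_trans r q p h1 h2 := ⟨h2.1.trans h1.1, fun j hj => (h1.2 j (hj.trans_le h2.1)).trans (h2.2 j hj)⟩

/-- the set of sequences through a condition -/
def Cond.cyl {A : Type*} (p : Cond A) : Set (ℕ → A) := {h | ∀ j < p.len, h j = p.seq j}

theorem Cond.cyl_mono {A : Type*} {p q : Cond A} (h : q ≤ p) : q.cyl ⊆ p.cyl :=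
  fun _ hx j hj => (hx j (hj.trans_le h.1)).trans (h.2 j hj)

theorem Cond.seq_mem {A : Type*} (p : Cond A) : p.seq ∈ p.cyl := fun _ _ => rfl

theorem Cond.le_of_mem {A : Type*} {p : Cond A} {h : ℕ → A} (hh : h ∈ p.cyl) {k : ℕ}
    (hk : p.len ≤ k) : (⟨k, h⟩ : Cond A) ≤ p := ⟨hk, hh⟩

end Pool.Agent.Helper25TD
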