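import Mathlib
import Pool.Agent.Helper25_TD.Scheme
import Pool.Agent.Helper25_TD.Select

/-!
# The perfect set theorem for analytic sets
-/

set_option autoImplicit false

namespace Pool.Agent.Helper25TD

open Topology Set

theorem perfect_univ : Perfect (Set.univ : Set (ℕ → Bool)) := by
  refine ⟨isClosed_univ, ?_⟩
  rw [preperfect_iff_nhds]
  intro x _ U hU
  obtain ⟨V, hVU, hV, hxV⟩ := mem_nhds_iff.1 hU
  obtain ⟨n, hn⟩ := exists_cyl hV hxV
  refine ⟨Function.update x n (!x n), ⟨hVU (hn _ fun j hj => ?_), Set.mem_univ _⟩, fun h => ?_⟩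
  · rw [Function.update_of_ne hj.ne]
  · have := congrFun h n
    rw [Function.update_self] at this
    cases hx : x n <;> simp [hx] at this

theorem exists_cyl_nat {α : ℕ → ℕ} {U : Set (ℕ → ℕ)} (hU : IsOpen U) (h : α ∈ U) :
    ∃ n, ∀ β : ℕ → ℕ, (∀ j < n, β j = α j) → β ∈ U := by
  have h1 := (PiNat.isTopologicalBasis_cylinders (fun _ : ℕ => ℕ)).exists_subset_of_mem_open h hU
  obtain ⟨s, ⟨x, n, rfl⟩, h2, h3⟩ := h1
  refine ⟨n, fun β hβ => h3 ?_⟩
  rw [PiNat.mem_cylinder_iff] at h2 ⊢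
  intro i hi
  rw [hβ i hi, h2 i hi]

theorem exists_extend {f : (ℕ → ℕ) → (ℕ → Bool)} (p : Cond ℕ) (hp : ¬ (f '' p.cyl).Countable) :
    ∃ q ≤ p, q.len = p.len + 1 ∧ ¬ (f '' q.cyl).Countable := by
  by_contra hcon
  push Not at hcon
  apply hp
  have h1 : f '' p.cyl ⊆ ⋃ a : ℕ,
      f '' (⟨p.len + 1, Function.update p.seq p.len a⟩ : Cond ℕ).cyl := by
    rintro _ ⟨h, hh, rfl⟩
    refine mem_iUnion.2 ⟨h p.len, h, fun j hj => ?_, rfl⟩
    change h j = Function.update p.seq p.len (h p.len) j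
    rcases Nat.lt_succ_iff_lt_or_eq.1 hj with hj | rfl
    · rw [Function.update_of_ne hj.ne]
      exact hh j hj
    · rw [Function.update_self]
  refine (countable_iUnion fun a => hcon _ ⟨Nat.le_succ _, fun j hj => ?_⟩ rfl).mono h1
  change Function.update p.seq p.len a j = _
  rw [Function.update_of_ne hj.ne]

theorem exists_extend' {f : (ℕ → ℕ) → (ℕ → Bool)} (n : ℕ) (p : Cond ℕ)
    (hp : ¬ (f '' p.cyl).Countable) :
    ∃ q ≤ p, n ≤ q.len ∧ ¬ (f '' q.cyl).Countable := by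
  induction n with
  | zero => exact ⟨p, le_rfl, Nat.zero_le _, hp⟩
  | succ n ih =>
    obtain ⟨q, hq, h1, h2⟩ := ih
    obtain ⟨r, hr, h3, h4⟩ := exists_extend q h2
    exact ⟨r, hr.trans hq, by omega, h4⟩

/-- condensation points -/
def Cdn (f : (ℕ → ℕ) → (ℕ → Bool)) (h : ℕ → ℕ) : Prop :=
  ∀ k, ¬ (f '' (⟨k, h⟩ : Cond ℕ).cyl).Countable

theorem uncountable_cdn {f : (ℕ → ℕ) → (ℕ → Bool)} (p : Cond ℕ)
    (hp : ¬ (f '' p.cyl).Countable) : ¬ (f '' {h | h ∈ p.cyl ∧ Cdn f h}).Countable := by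
  intro hcon
  apply hp
  have h1 : (⋃ u : {u : (n : ℕ) × (Fin n → ℕ) // (f '' {h | ∀ i : Fin u.1, h i = u.2 i}).Countable},
      f '' {h | ∀ i : Fin u.1.1, h i = u.1.2 i}).Countable :=
    countable_iUnion fun u => u.2
  refine (hcon.union h1).mono ?_
  rintro _ ⟨h, hh, rfl⟩
  by_cases hc : Cdn f h
  · exact Or.inl ⟨h, ⟨hh, hc⟩, rfl⟩
  · right
    unfold Cdn at hc
    push Not at hc
    obtain ⟨k, hk⟩ := hc
    have h2 : {h' : ℕ → ℕ | ∀ i : Fin k, h' i = h i} = (⟨k, h⟩ : Cond ℕ).cyl := by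
      ext h'
      exact ⟨fun h3 j hj => h3 ⟨j, hj⟩, fun h3 i => h3 i i.2⟩
    refine mem_iUnion.2 ⟨⟨⟨k, fun i => h i⟩, ?_⟩, h, fun i => rfl, rfl⟩
    rw [h2]
    exact hk

/-- The perfect set theorem for analytic sets. -/
theorem analytic_perfect {R : Set (ℕ → Bool)} (hR : MeasureTheory.AnalyticSet R)
    (hunc : ¬ R.Countable) : ∃ Q ⊆ R, Perfect Q ∧ Q.Nonempty := by
  have hR' := hR
  rw [MeasureTheory.AnalyticSet] at hR'
  rcases hR' with rfl | ⟨f, hf, hfR⟩
  · exact absurd countable_empty hunc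
  let P := {p : Cond ℕ // ¬ (f '' p.cyl).Countable}
  have hloc : ∀ (h : ℕ → ℕ) (l : ℕ), ∃ k, ∀ h' : ℕ → ℕ, (∀ j < k, h' j = h j) → f h' l = f h l := by
    intro h l
    have h1 : IsOpen {h' | f h' l = f h l} :=
      (isOpen_discrete {f h l}).preimage
        ((continuous_apply l : Continuous fun β : ℕ → Bool => β l).comp hf)
    exact exists_cyl_nat h1 rfl
  obtain ⟨F, hF1, hF2, hF3⟩ := scheme (P := P)
    ⟨⟨0, fun _ => 0⟩, by
      have : (⟨0, fun _ => 0⟩ : Cond ℕ).cyl = Set.univ := by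
        ext h
        simp [Cond.cyl]
      rw [this, image_univ, hfR]
      exact hunc⟩
    (fun m => {p | m ≤ p.1.len})
    (by
      rintro m ⟨p, hp⟩
      obtain ⟨q, h1, h2, h3⟩ := exists_extend' m p hp
      exact ⟨⟨q, h3⟩, h1, h2⟩)
    (fun m p q h1 h2 => le_trans (show m ≤ p.1.len from h1) (show p.1 ≥ q.1 from h2).1)
    (fun _ p q => ∃ l, ∃ b, (∀ h ∈ p.1.cyl, f h l = b) ∧ ∀ h ∈ q.1.cyl, f h l = !b)
    (by
      rintro _ ⟨p, hp⟩ ⟨q, hq⟩
      have h1 := uncountable_cdn p hp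
      have h2 := uncountable_cdn q hq
      obtain ⟨_, ⟨h2, ⟨hh2, hc2⟩, rfl⟩⟩ : (f '' {h | h ∈ q.cyl ∧ Cdn f h}).Nonempty := by
        rw [Set.nonempty_iff_ne_empty]
        intro h3
        rw [h3] at h2
        exact h2 countable_empty
      obtain ⟨_, ⟨h1, ⟨hh1, hc1⟩, rfl⟩, hne⟩ :
          ∃ y ∈ f '' {h | h ∈ p.cyl ∧ Cdn f h}, y ≠ f h2 := by
        by_contra hcon
        push Not at hcon
        exact h1 ((countable_singleton (f h2)).mono hcon)
      obtain ⟨l, hl⟩ := Function.ne_iff.1 hne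
      obtain ⟨k1, hk1⟩ := hloc h1 l
      obtain ⟨k2, hk2⟩ := hloc h2 l
      refine ⟨⟨⟨max p.len k1, h1⟩, hc1 _⟩, Cond.le_of_mem hh1 (le_max_left _ _),
        ⟨⟨max q.len k2, h2⟩, hc2 _⟩, Cond.le_of_mem hh2 (le_max_left _ _), l, f h1 l,
        fun h hh => hk1 h fun j hj => hh j (hj.trans_le (le_max_right _ _)), fun h hh => ?_⟩
      rw [hk2 h fun j hj => hh j (hj.trans_le (le_max_right _ _))]
      cases h3 : f h1 l <;> cases h4 : f h2 l <;> simp_all)
    (by
      rintro _ p q p' q' ⟨l, b, h1, h2⟩ hp hq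
      exact ⟨l, b, fun h hh => h1 h (Cond.cyl_mono hp hh),
        fun h hh => h2 h (Cond.cyl_mono hq hh)⟩)
  let p : ℕ → (ℕ → Bool) → Cond ℕ := fun n α => (F n (res α n)).1
  have hp1 : ∀ n α, p (n + 1) α ≤ p n α := fun n α => hF1 n (res α (n + 1))
  have hp : ∀ α m n, m ≤ n → p n α ≤ p m α := by
    intro α m n hmn
    induction hmn with
    | refl => exact le_rfl
    | step h ih => exact (hp1 _ α).trans ih
  have hlen : ∀ α n, n < (p (n + 2) α).len := fun α n =>
    (Nat.lt_succ_self n).trans_le (hF2 (n + 2) (res α (n + 2)) (n + 1) (Nat.lt_succ_self _))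
  let g : (ℕ → Bool) → (ℕ → ℕ) := fun α j => (p (j + 2) α).seq j
  have hg : ∀ α n, g α ∈ (p n α).cyl := by
    intro α n j hj
    have h1 := (hp α n (max n (j + 2)) (le_max_left _ _)).2 j hj
    have h2 := (hp α (j + 2) (max n (j + 2)) (le_max_right _ _)).2 j (hlen α j)
    exact h2.symm.trans h1
  have hgc : Continuous g := by
    refine continuous_pi fun j => ?_
    have h1 : Continuous fun u : Fin (j + 2) → Bool => (F (j + 2) u).1.seq j :=
      continuous_of_discreteTopology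
    exact h1.comp (continuous_pi fun i => continuous_apply (i : ℕ))
  have hinj : Function.Injective fun α => f (g α) := by
    intro α β h
    by_contra hne
    obtain ⟨j, hj⟩ := Function.ne_iff.1 hne
    obtain ⟨l, b, h1, h2⟩ := hF3 (j + 1) (res α _) (res β _) (res_ne hj (Nat.lt_succ_self j)) 0
      (Nat.succ_pos _)
    have h3 := h1 (g α) (hg α _)
    have h4 := h2 (g β) (hg β _)
    have h5 : f (g α) l = f (g β) l := congrFun h l
    rw [h3, h4] at h5
    cases b <;> simp at h5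
  have hcl : IsClosed (Set.range fun α => f (g α)) :=
    (isCompact_range (hf.comp hgc)).isClosed
  have hunc' : ¬ (Set.range fun α => f (g α)).Countable := by
    intro h
    rw [← image_univ] at h
    have := h.preimage_of_injOn (f := fun α => f (g α)) hinj.injOn
    refine perfect_not_countable perfect_univ Set.univ_nonempty (this.mono ?_)
    intro x _
    exact ⟨x, mem_univ _, rfl⟩
  obtain ⟨Q, hQ, hne, hs⟩ := exists_perfect_nonempty_of_isClosed_of_not_countable hcl hunc'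
  refine ⟨Q, fun y hy => ?_, hQ, hne⟩
  obtain ⟨α, rfl⟩ := hs hy
  rw [← hfR]
  exact mem_range_self _

/-- An analytic Marczewski null set is countable. -/
theorem countable_of_analytic {C R : Set (ℕ → Bool)} (hC : MarczewskiNull C)
    (hR : MeasureTheory.AnalyticSet R) (h : R ⊆ C) : R.Countable := by
  by_contra hunc
  obtain ⟨Q, hQ, h1, h2⟩ := analytic_perfect hR hunc
  obtain ⟨Q', hQ', _, ⟨x, hx⟩, h4⟩ := hC Q h1 h2
  exact Set.disjoint_left.1 h4 hx (h (hQ (hQ' hx)))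

end Pool.Agent.Helper25TD
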