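import Mathlib
import Pool.Agent.Helper25_TD.Scheme
import Pool.Agent.Helper25_TD.Select

/-!
# Generic sequences and Marczewski null sets
-/

set_option autoImplicit false

namespace Pool.Agent.Helper25TD

open Topology Set

section

variable {A : Type*}

/-- membership in `V` is decided by finite initial segments -/
def PreOpen (V : Set (ℕ → A)) : Prop :=
  ∀ h ∈ V, ∃ k, ∀ h' : ℕ → A, (∀ j < k, h' j = h j) → h' ∈ V

/-- every finite sequence is an initial segment of an element of `V` -/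
def PreDense (V : Set (ℕ → A)) : Prop :=
  ∀ (h : ℕ → A) (k : ℕ), ∃ h' ∈ V, ∀ j < k, h' j = h j

/-- the partial map into Cantor space given by `V` (the bit at `l` is `b` on `V l b`) has the
constant value `y` on a dense part of the set of extensions of the first `k` terms of `h` -/
def Const (V : ℕ → Bool → Set (ℕ → A)) (k : ℕ) (h : ℕ → A) (y : ℕ → Bool) : Prop :=
  ∀ l, ∀ h' : ℕ → A, (∀ j < k, h' j = h j) → ∀ k', ∃ h'' ∈ V l (y l), ∀ j < k', h'' j = h' j

variable {V : ℕ → Bool → Set (ℕ → A)}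

theorem Const.mono {k k' : ℕ} {h h' : ℕ → A} {y : ℕ → Bool} (hc : Const V k h y) (hk : k ≤ k')
    (hh : ∀ j < k, h' j = h j) : Const V k' h' y := fun l h'' h1 k'' =>
  hc l h'' (fun j hj => (h1 j (hj.trans_le hk)).trans (hh j hj)) k''

theorem bool_eq_of_mem (hdis : ∀ l h, ¬ (h ∈ V l true ∧ h ∈ V l false)) {l : ℕ} {h : ℕ → A}
    {b b' : Bool} (h1 : h ∈ V l b) (h2 : h ∈ V l b') : b = b' := by
  cases b <;> cases b'
  · rfl
  · exact absurd ⟨h2, h1⟩ (hdis l h)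
  · exact absurd ⟨h1, h2⟩ (hdis l h)
  · rfl

theorem Const.unique (hV : ∀ l b, PreOpen (V l b))
    (hdis : ∀ l h, ¬ (h ∈ V l true ∧ h ∈ V l false)) {k : ℕ} {h : ℕ → A} {y y' : ℕ → Bool}
    (hc : Const V k h y) (hy' : ∀ l, h ∈ V l (y' l)) : y = y' := by
  funext l
  obtain ⟨k1, hk1⟩ := hV l (y' l) h (hy' l)
  obtain ⟨h'', h1, h2⟩ := hc l h (fun _ _ => rfl) k1
  exact bool_eq_of_mem hdis h1 (hk1 h'' h2)

theorem Const.unique' (hV : ∀ l b, PreOpen (V l b))
    (hdis : ∀ l h, ¬ (h ∈ V l true ∧ h ∈ V l false)) {k : ℕ} {h : ℕ → A} {y y' : ℕ → Bool}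
    (hc : Const V k h y) (hc' : Const V k h y') : y = y' := by
  funext l
  obtain ⟨h1, h2, h3⟩ := hc' l h (fun _ _ => rfl) k
  obtain ⟨k1, hk1⟩ := hV l (y' l) h1 h2
  obtain ⟨h'', h4, h5⟩ := hc l h1 h3 k1
  exact bool_eq_of_mem hdis h4 (hk1 h'' h5)

/-- the pair requirement -/
def Sep (V : ℕ → Bool → Set (ℕ → A)) (p q : Cond A) : Prop :=
  (∃ y, Const V p.len p.seq y) ∨
    ∀ h1 ∈ p.cyl, ∀ h2 ∈ q.cyl, ∀ y : ℕ → Bool, (∀ l, h1 ∈ V l (y l)) → ¬ ∀ l, h2 ∈ V l (y l)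

theorem Sep.mono {p q p' q' : Cond A} (h : Sep V p q) (hp : p' ≤ p) (hq : q' ≤ q) :
    Sep V p' q' := by
  rcases h with ⟨y, hy⟩ | h
  · exact Or.inl ⟨y, hy.mono hp.1 hp.2⟩
  · exact Or.inr fun h1 hh1 h2 hh2 => h h1 (Cond.cyl_mono hp hh1) h2 (Cond.cyl_mono hq hh2)

theorem exists_sep (hV : ∀ l b, PreOpen (V l b))
    (hdis : ∀ l h, ¬ (h ∈ V l true ∧ h ∈ V l false)) (p q : Cond A) :
    ∃ p' ≤ p, ∃ q' ≤ q, Sep V p' q' := by
  by_contra hcon
  push Not at hcon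
  have hcom : ∀ p' ≤ p, ∀ q' ≤ q, ∃ h1 ∈ p'.cyl, ∃ h2 ∈ q'.cyl, ∃ y : ℕ → Bool,
      (∀ l, h1 ∈ V l (y l)) ∧ ∀ l, h2 ∈ V l (y l) := by
    intro p' hp' q' hq'
    have h1 := hcon p' hp' q' hq'
    unfold Sep at h1
    push Not at h1
    obtain ⟨_, h1, hh1, h2, hh2, y, hy1, hy2⟩ := h1
    exact ⟨h1, hh1, h2, hh2, y, hy1, hy2⟩
  obtain ⟨h1, hh1, h2, hh2, y, hy1, hy2⟩ := hcom p le_rfl q le_rfl
  have claim1 : ∀ l, ∀ h ∈ q.cyl, h ∉ V l (!y l) := by
    intro l h hh hh'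
    obtain ⟨k1, hk1⟩ := hV l _ h hh'
    obtain ⟨k0, hk0⟩ := hV l _ h1 (hy1 l)
    obtain ⟨h3, hh3, h4, hh4, y2, hy3, hy4⟩ := hcom ⟨max p.len k0, h1⟩
      (Cond.le_of_mem hh1 (le_max_left _ _)) ⟨max q.len k1, h⟩
      (Cond.le_of_mem hh (le_max_left _ _))
    have h5 : y2 l = y l := bool_eq_of_mem hdis (hy3 l)
      (hk0 h3 fun j hj => hh3 j (hj.trans_le (le_max_right _ _)))
    have h6 : y2 l = !y l := bool_eq_of_mem hdis (hy4 l)
      (hk1 h4 fun j hj => hh4 j (hj.trans_le (le_max_right _ _)))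
    rw [h5] at h6
    cases h7 : y l <;> simp [h7] at h6
  refine hcon p le_rfl q le_rfl (Or.inl ⟨y, fun l h' hh' k' => ?_⟩)
  obtain ⟨h3, hh3, h4, hh4, y2, hy3, hy4⟩ := hcom ⟨max p.len k', h'⟩
    (Cond.le_of_mem hh' (le_max_left _ _)) q le_rfl
  refine ⟨h3, ?_, fun j hj => hh3 j (hj.trans_le (le_max_right _ _))⟩
  have h5 : y2 l = y l := by
    by_contra h6
    have h7 : y2 l = !y l := by
      cases h8 : y l <;> cases h9 : y2 l <;> simp_all
    have h8 := hy4 l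
    rw [h7] at h8
    exact claim1 l h4 hh4 h8
  rw [← h5]
  exact hy3 l

/-- `p` decides whether the value at `l` is defined -/
def Dec (V : ℕ → Bool → Set (ℕ → A)) (l : ℕ) (p : Cond A) : Prop :=
  (∃ b, p.cyl ⊆ V l b) ∨ ∀ b, ∀ h ∈ p.cyl, h ∉ V l b

theorem Dec.mono {l : ℕ} {p q : Cond A} (h : Dec V l p) (hq : q ≤ p) : Dec V l q := by
  rcases h with ⟨b, hb⟩ | h
  · exact Or.inl ⟨b, (Cond.cyl_mono hq).trans hb⟩
  · exact Or.inr fun b h' hh' => h b h' (Cond.cyl_mono hq hh')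

theorem exists_dec (hV : ∀ l b, PreOpen (V l b)) (l : ℕ) (p : Cond A) : ∃ q ≤ p, Dec V l q := by
  by_cases h : ∃ b, ∃ h ∈ p.cyl, h ∈ V l b
  · obtain ⟨b, h, hh, hb⟩ := h
    obtain ⟨k, hk⟩ := hV l b h hb
    refine ⟨⟨max p.len k, h⟩, Cond.le_of_mem hh (le_max_left _ _), Or.inl ⟨b, fun h' hh' => ?_⟩⟩
    exact hk h' fun j hj => hh' j (hj.trans_le (le_max_right _ _))
  · push Not at h
    exact ⟨p, le_rfl, Or.inr h⟩

end

/-- The main lemma on generic sequences, for sequences of requirements indexed by the natural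
numbers. -/
theorem generic_nat {C : Set (ℕ → Bool)} (hC : Selective C) {A : Type*} [Nonempty A]
    (V : ℕ → ℕ → Bool → Set (ℕ → A)) (hV : ∀ e l b, PreOpen (V e l b))
    (hdis : ∀ e l h, ¬ (h ∈ V e l true ∧ h ∈ V e l false))
    (D : ℕ → Set (ℕ → A)) (hD : ∀ n, PreOpen (D n)) (hD' : ∀ n, PreDense (D n)) :
    ∃ h : ℕ → A, (∀ n, h ∈ D n) ∧
      ∀ e, ∀ y : ℕ → Bool, (∀ l, h ∈ V e l (y l)) → y ∈ C → ∃ k, Const (V e) k h y := by
  classical
  let DD : ℕ → Set (Cond A) := fun m =>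
    {p | m ≤ p.len ∧ Dec (V (Nat.unpair m).1) (Nat.unpair m).2 p ∧ p.cyl ⊆ D m}
  obtain ⟨F, hF1, hF2, hF3⟩ := scheme (P := Cond A) ⟨0, fun _ => Classical.arbitrary A⟩ DD
    (by
      intro m p
      obtain ⟨q, hq, hq'⟩ := exists_dec (hV (Nat.unpair m).1) (Nat.unpair m).2 p
      obtain ⟨h', hh', hh''⟩ := hD' m q.seq q.len
      obtain ⟨k, hk⟩ := hD m h' hh'
      have h1 : (⟨max (max q.len m) k, h'⟩ : Cond A) ≤ q :=
        Cond.le_of_mem hh'' ((le_max_left _ _).trans (le_max_left _ _))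
      refine ⟨_, h1.trans hq, (le_max_right _ _).trans (le_max_left _ _), hq'.mono h1,
        fun h2 hh2 => hk h2 fun j hj => hh2 j (hj.trans_le (le_max_right _ _))⟩)
    (by
      rintro m p q ⟨h1, h2, h3⟩ hq
      exact ⟨h1.trans hq.1, h2.mono hq, (Cond.cyl_mono hq).trans h3⟩)
    (fun m => Sep (V m)) (fun m => exists_sep (hV m) (hdis m))
    (fun m p q p' q' h hp hq => h.mono hp hq)
  let p : ℕ → (ℕ → Bool) → Cond A := fun n α => F n (res α n)
  have hp1 : ∀ n α, p (n + 1) α ≤ p n α := fun n α => hF1 n (res α (n + 1))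
  have hp : ∀ α m n, m ≤ n → p n α ≤ p m α := by
    intro α m n hmn
    induction hmn with
    | refl => exact le_rfl
    | step h ih => exact (hp1 _ α).trans ih
  have hpD : ∀ α m n, m < n → p n α ∈ DD m := fun α m n h => hF2 n _ m h
  have hlen : ∀ α n, n < (p (n + 2) α).len := fun α n =>
    (Nat.lt_succ_self n).trans_le (hpD α (n + 1) (n + 2) (Nat.lt_succ_self _)).1
  let g : (ℕ → Bool) → (ℕ → A) := fun α j => (p (j + 2) α).seq j
  have hg : ∀ α n, g α ∈ (p n α).cyl := by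
    intro α n j hj
    have h1 := (hp α n (max n (j + 2)) (le_max_left _ _)).2 j hj
    have h2 := (hp α (j + 2) (max n (j + 2)) (le_max_right _ _)).2 j (hlen α j)
    exact h2.symm.trans h1
  let E : ℕ → Set (ℕ → Bool) := fun e =>
    {α | ∀ l, ∃ b, (p (Nat.pair e l + 1) α).cyl ⊆ V e l b}
  let H : ℕ → (ℕ → Bool) → (ℕ → Bool) := fun e α l =>
    decide ((p (Nat.pair e l + 1) α).cyl ⊆ V e l true)
  have hres : ∀ n, Continuous fun α : ℕ → Bool => res α n := fun n =>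
    continuous_pi fun i => continuous_apply (i : ℕ)
  have hval : ∀ e α, ∀ y : ℕ → Bool, (∀ l, g α ∈ V e l (y l)) ↔ α ∈ E e ∧ y = H e α := by
    intro e α y
    have hmem : ∀ l b, (p (Nat.pair e l + 1) α).cyl ⊆ V e l b →
        H e α l = b ∧ g α ∈ V e l b := by
      intro l b hb
      refine ⟨?_, hb (hg α _)⟩
      cases b with
      | true => exact decide_eq_true hb
      | false =>
        refine decide_eq_false fun h => ?_
        exact hdis e l (g α) ⟨h (hg α _), hb (hg α _)⟩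
    constructor
    · intro hy
      have h1 : ∀ l, (p (Nat.pair e l + 1) α).cyl ⊆ V e l (y l) := by
        intro l
        have h2 := (hpD α (Nat.pair e l) _ (Nat.lt_succ_self _)).2.1
        rw [Nat.unpair_pair] at h2
        rcases h2 with ⟨b, hb⟩ | h2
        · have h3 : b = y l := bool_eq_of_mem (hdis e) (hb (hg α _)) (hy l)
          rw [← h3]
          exact hb
        · exact absurd (hy l) (h2 _ _ (hg α _))
      exact ⟨fun l => ⟨_, h1 l⟩, funext fun l => ((hmem l _ (h1 l)).1).symm⟩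
    · rintro ⟨hE, rfl⟩ l
      obtain ⟨b, hb⟩ := hE l
      rw [(hmem l b hb).1]
      exact (hmem l b hb).2
  obtain ⟨α, hα⟩ := hC E
    (by
      intro e
      have : E e = ⋂ l, {α | ∃ b, (p (Nat.pair e l + 1) α).cyl ⊆ V e l b} := by
        ext α
        simp [E]
      rw [this]
      refine isClosed_iInter fun l => ?_
      exact (isClosed_discrete
        {u : Fin (Nat.pair e l + 1) → Bool | ∃ b, (F _ u).cyl ⊆ V e l b}).preimage (hres _))
    H
    (by
      intro e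
      refine continuous_pi fun l => ?_
      have h1 : Continuous fun u : Fin (Nat.pair e l + 1) → Bool =>
          decide ((F (Nat.pair e l + 1) u).cyl ⊆ V e l true) := continuous_of_discreteTopology
      exact h1.comp (hres _))
    (fun e => {α | ∃ k, Const (V e) k (g α) (H e α)})
    (by
      intro e α β hne hα hβ hH
      obtain ⟨j, hj⟩ := Function.ne_iff.1 hne
      have h1 := hF3 (max (j + 1) (e + 1)) (res α _) (res β _)
        (res_ne hj (lt_of_lt_of_le (Nat.lt_succ_self j) (le_max_left _ _))) e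
        (lt_of_lt_of_le (Nat.lt_succ_self e) (le_max_right _ _))
      have h2 := (hval e α (H e α)).2 ⟨hα, rfl⟩
      have h3 := (hval e β (H e β)).2 ⟨hβ, rfl⟩
      rcases h1 with ⟨y, hy⟩ | h1
      · have h4 : Const (V e) _ (g α) y := hy.mono le_rfl (hg α _)
        rw [h4.unique (hV e) (hdis e) h2] at h4
        exact ⟨_, h4⟩
      · refine absurd ?_ (h1 (g α) (hg α _) (g β) (hg β _) (H e α) h2)
        rw [hH]
        exact h3)
  refine ⟨g α, fun n => (hpD α n (n + 1) (Nat.lt_succ_self n)).2.2 (hg α _), fun e y hy hyC => ?_⟩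
  obtain ⟨h1, rfl⟩ := (hval e α y).1 hy
  exact hα e h1 hyC

/-- The main lemma on generic sequences. -/
theorem generic {C : Set (ℕ → Bool)} (hC : Selective C) {A : Type*} [Nonempty A]
    {ι κ : Type*} [Countable ι] [Countable κ] [Nonempty ι] [Nonempty κ]
    (V : ι → ℕ → Bool → Set (ℕ → A)) (hV : ∀ e l b, PreOpen (V e l b))
    (hdis : ∀ e l h, ¬ (h ∈ V e l true ∧ h ∈ V e l false))
    (D : κ → Set (ℕ → A)) (hD : ∀ n, PreOpen (D n)) (hD' : ∀ n, PreDense (D n)) :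
    ∃ h : ℕ → A, (∀ n, h ∈ D n) ∧
      ∀ e, ∀ y : ℕ → Bool, (∀ l, h ∈ V e l (y l)) → y ∈ C → ∃ k, Const (V e) k h y := by
  obtain ⟨f, hf⟩ := exists_surjective_nat ι
  obtain ⟨f', hf'⟩ := exists_surjective_nat κ
  obtain ⟨h, h1, h2⟩ := generic_nat hC (fun n => V (f n)) (fun n => hV (f n))
    (fun n => hdis (f n)) (fun n => D (f' n)) (fun n => hD (f' n)) (fun n => hD' (f' n))
  refine ⟨h, fun n => ?_, fun e => ?_⟩
  · obtain ⟨m, rfl⟩ := hf' n
    exact h1 m
  · obtain ⟨m, rfl⟩ := hf e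
    exact h2 m

end Pool.Agent.Helper25TD
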