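import Mathlib
import Pool.Agent.Helper25_TD.Generic

/-!
# The set of dense constants of a continuous partial map is analytic
-/

set_option autoImplicit false

namespace Pool.Agent.Helper25TD

open Topology Set MeasureTheory

/-- replace the terms of `t` before `k` by those of `h` -/
def splice (k : ℕ) (h t : ℕ → (ℕ → Bool)) : ℕ → (ℕ → Bool) := fun n => if n < k then h n else t n

theorem continuous_splice (k : ℕ) :
    Continuous fun x : (ℕ → (ℕ → Bool)) × (ℕ → (ℕ → Bool)) => splice k x.1 x.2 := by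
  refine continuous_pi fun n => ?_
  unfold splice
  by_cases h : n < k
  · simp only [h, if_true]
    exact (continuous_apply n).comp continuous_fst
  · simp only [h, if_false]
    exact (continuous_apply n).comp continuous_snd

theorem splice_lt {k n : ℕ} (h t : ℕ → (ℕ → Bool)) (hn : n < k) : splice k h t n = h n :=
  if_pos hn

theorem splice_eq {k : ℕ} {h t : ℕ → (ℕ → Bool)} (H : ∀ j < k, t j = h j) : splice k h t = t := by
  funext n
  unfold splice
  split_ifs with h1
  · exact (H n h1).symm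
  · rfl

theorem const_iff {V : ℕ → Bool → Set (ℕ → (ℕ → Bool))} {k : ℕ} {h : ℕ → (ℕ → Bool)}
    {y : ℕ → Bool} : Const V k h y ↔
      ∀ l m, ∀ t, ∃ t', splice m (splice k h t) t' ∈ V l (y l) := by
  constructor
  · intro hc l m t
    obtain ⟨h'', h1, h2⟩ := hc l (splice k h t) (fun j hj => splice_lt h t hj) m
    refine ⟨h'', ?_⟩
    rw [splice_eq h2]
    exact h1
  · intro hc l h' hh' k'
    obtain ⟨t', ht'⟩ := hc l k' h'
    rw [splice_eq (k := k) hh'] at ht'
    exact ⟨_, ht', fun j hj => splice_lt _ _ hj⟩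

theorem isOpen_const (V : Set (ℕ → (ℕ → Bool))) (hV : IsOpen V) (k m : ℕ) :
    IsOpen {h : ℕ → (ℕ → Bool) | ∀ t, ∃ t', splice m (splice k h t) t' ∈ V} := by
  have hO : IsOpen {h : ℕ → (ℕ → Bool) | ∃ t', splice m h t' ∈ V} := by
    have : {h : ℕ → (ℕ → Bool) | ∃ t', splice m h t' ∈ V} =
        ⋃ t', {h | splice m h t' ∈ V} := by
      ext h
      simp
    rw [this]
    refine isOpen_iUnion fun t' => ?_
    exact hV.preimage ((continuous_splice m).comp (continuous_id.prodMk continuous_const))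
  rw [← isClosed_compl_iff]
  have h1 : {h : ℕ → (ℕ → Bool) | ∀ t, ∃ t', splice m (splice k h t) t' ∈ V}ᶜ =
      Prod.fst '' {x : (ℕ → (ℕ → Bool)) × (ℕ → (ℕ → Bool)) |
        splice k x.1 x.2 ∉ {h : ℕ → (ℕ → Bool) | ∃ t', splice m h t' ∈ V}} := by
    ext h
    constructor
    · intro hh
      rw [mem_compl_iff, mem_ofPred] at hh
      push Not at hh
      obtain ⟨t, ht⟩ := hh
      refine ⟨(h, t), ?_, rfl⟩
      rintro ⟨t', ht'⟩
      exact ht t' ht'
    · rintro ⟨⟨h', t⟩, hx, rfl⟩ hh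
      exact hx (hh t)
  rw [h1]
  exact isClosedMap_fst_of_compactSpace _ (hO.isClosed_compl.preimage (continuous_splice k))

theorem polish_of {α : Type*} [TopologicalSpace α] [SecondCountableTopology α]
    [TopologicalSpace.IsCompletelyMetrizableSpace α] : PolishSpace α := by
  infer_instance

theorem open_analytic {α : Type*} [TopologicalSpace α]
    [PolishSpace α] {s : Set α} (hs : IsOpen s) : AnalyticSet s := by
  have := hs.analyticSet_image continuous_id
  rwa [image_id] at this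

theorem analytic_consts (V : ℕ → Bool → Set (ℕ → (ℕ → Bool))) (hV : ∀ l b, IsOpen (V l b))
    (k : ℕ) (h : ℕ → (ℕ → Bool)) :
    AnalyticSet {v : ℕ → Bool | ∃ k' ≥ k, ∃ h' : ℕ → (ℕ → Bool), (∀ j < k, h' j = h j) ∧
      Const V k' h' v} := by
  have hpol : PolishSpace ((ℕ → (ℕ → Bool)) × (ℕ → Bool)) := polish_of
  have h1 : ∀ k', AnalyticSet {x : (ℕ → (ℕ → Bool)) × (ℕ → Bool) | Const V k' x.1 x.2} := by
    intro k'
    have : {x : (ℕ → (ℕ → Bool)) × (ℕ → Bool) | Const V k' x.1 x.2} =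
        ⋂ q : ℕ × ℕ, ({x : (ℕ → (ℕ → Bool)) × (ℕ → Bool) |
          ∀ t, ∃ t', splice q.2 (splice k' x.1 t) t' ∈ V q.1 (x.2 q.1)}) := by
      ext x
      rw [mem_ofPred, const_iff, mem_iInter]
      exact ⟨fun H q => H q.1 q.2, fun H l m => H (l, m)⟩
    rw [this]
    refine AnalyticSet.iInter fun q => open_analytic ?_
    have h2 : {x : (ℕ → (ℕ → Bool)) × (ℕ → Bool) |
          ∀ t, ∃ t', splice q.2 (splice k' x.1 t) t' ∈ V q.1 (x.2 q.1)} =
        ⋃ b : Bool, ((Prod.fst ⁻¹' {h : ℕ → (ℕ → Bool) |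
          ∀ t, ∃ t', splice q.2 (splice k' h t) t' ∈ V q.1 b}) ∩
            {x : (ℕ → (ℕ → Bool)) × (ℕ → Bool) | x.2 q.1 = b}) := by
      ext x
      rw [mem_iUnion]
      constructor
      · exact fun H => ⟨x.2 q.1, H, rfl⟩
      · rintro ⟨b, H1, H2⟩
        rw [mem_ofPred] at H2
        rw [mem_ofPred, H2]
        exact H1
    rw [h2]
    refine isOpen_iUnion fun b => ((isOpen_const _ (hV q.1 b) k' q.2).preimage
      continuous_fst).inter ?_
    exact (isOpen_discrete {b}).preimage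
      ((continuous_apply q.1 : Continuous fun β : ℕ → Bool => β q.1).comp continuous_snd)
  have h2 : {v : ℕ → Bool | ∃ k' ≥ k, ∃ h' : ℕ → (ℕ → Bool), (∀ j < k, h' j = h j) ∧
      Const V k' h' v} = ⋃ k' : {k' // k ≤ k'}, Prod.snd ''
        ({x : (ℕ → (ℕ → Bool)) × (ℕ → Bool) | Const V k'.1 x.1 x.2} ∩
          {x | ∀ j < k, x.1 j = h j}) := by
    ext v
    rw [mem_iUnion]
    constructor
    · rintro ⟨k', hk', h', hh', hc⟩
      exact ⟨⟨k', hk'⟩, (h', v), ⟨hc, hh'⟩, rfl⟩
    · rintro ⟨⟨k', hk'⟩, ⟨h', v'⟩, ⟨hc, hh'⟩, rfl⟩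
      exact ⟨k', hk', h', hh', hc⟩
  rw [h2]
  refine AnalyticSet.iUnion fun k' => AnalyticSet.image_of_continuous ?_ continuous_snd
  have h3 : IsClosed {x : (ℕ → (ℕ → Bool)) × (ℕ → Bool) | ∀ j < k, x.1 j = h j} := by
    have : {x : (ℕ → (ℕ → Bool)) × (ℕ → Bool) | ∀ j < k, x.1 j = h j} =
        ⋂ j : Fin k, {x | x.1 j = h j} := by
      ext x
      rw [mem_iInter]
      exact ⟨fun H j => H j j.2, fun H j hj => H ⟨j, hj⟩⟩
    rw [this]
    exact isClosed_iInter fun j => isClosed_eq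
      ((continuous_apply (j : ℕ)).comp continuous_fst) continuous_const
  have h4 : ({x : (ℕ → (ℕ → Bool)) × (ℕ → Bool) | Const V k'.1 x.1 x.2} ∩
          {x | ∀ j < k, x.1 j = h j}) =
      ⋂ b : Bool, (if b then {x : (ℕ → (ℕ → Bool)) × (ℕ → Bool) | Const V k'.1 x.1 x.2} else
          {x | ∀ j < k, x.1 j = h j}) := by
    ext x
    simp [Bool.forall_bool, and_comm]
  rw [h4]
  refine AnalyticSet.iInter fun b => ?_
  cases b
  · simpa using h3.analyticSet
  · simpa using h1 k'.1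

end Pool.Agent.Helper25TD
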