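import Mathlib
import Pool.Agent.Helper25_TD.Functional
import Pool.Agent.Helper25_TD.Constants
import Pool.Agent.Helper25_TD.Analytic

/-!
# The game for the set of reals that list their own members of a Marczewski null set
-/

set_option autoImplicit false

namespace Pool.Agent.Helper25TD

open Topology Set

theorem turingInvariant_lists (C : Set (ℕ → Bool)) : TuringInvariant (Lists C) := by
  rintro x y hxy hyx ⟨L, hL, h⟩
  refine ⟨L, hL.trans hxy, fun z => ?_⟩
  rw [← h z]
  exact ⟨fun h1 => ⟨h1.1, h1.2.trans hyx⟩, fun h1 => ⟨h1.1, h1.2.trans hxy⟩⟩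

theorem preOpen_of {A : Type*} (val : A → (ℕ → Bool)) (r : ℕ) (s : List Bool → Bool)
    {W : Set (ℕ → Bool)} (hW : IsOpen W) :
    PreOpen {h : ℕ → A | play r s (jn fun n => val (h n)) ∈ W} := by
  intro h hh
  obtain ⟨N, hN⟩ := exists_cyl hW hh
  refine ⟨N + 1, fun h' hh' => hN _ fun j hj => play_congr r s fun m hm => jn_congr (N := N + 1)
    (fun i hi => ?_) (by omega)⟩
  rw [hh' i hi]

theorem row_le {r : ℕ} (hr : r < 2) (s : List Bool → Bool) (h : ℕ → (ℕ → Bool)) (i : ℕ) :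
    TLE (h i) (play r s (jn h)) := by
  have h1 : Primrec fun l : ℕ => 2 * Nat.pair i l + (1 - r) :=
    Primrec.nat_add.comp (Primrec.nat_mul.comp (Primrec.const 2)
      (Primrec₂.natPair.comp (Primrec.const i) Primrec.id)) (Primrec.const _)
  have h2 := TLE.sub (x := play r s (jn h)) h1
  have h3 : (fun n => play r s (jn h) (2 * Nat.pair i n + (1 - r))) = h i := by
    funext l
    rw [play_ne r s (jn h) (by omega)]
    have : (2 * Nat.pair i l + (1 - r)) / 2 = Nat.pair i l := by omega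
    rw [this]
    exact congrFun (row_jn h i) l
  rwa [h3] at h2

theorem jn_le {r : ℕ} (hr : r < 2) (s : List Bool → Bool) (h : ℕ → (ℕ → Bool)) :
    TLE (jn h) (play r s (jn h)) := by
  have h1 : Primrec fun l : ℕ => 2 * l + (1 - r) :=
    Primrec.nat_add.comp (Primrec.nat_mul.comp (Primrec.const 2) Primrec.id) (Primrec.const _)
  have h2 := TLE.sub (x := play r s (jn h)) h1
  have h3 : (fun n => play r s (jn h) (2 * n + (1 - r))) = jn h := by
    funext l
    rw [play_ne r s (jn h) (by omega)]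
    have : (2 * l + (1 - r)) / 2 = l := by omega
    rw [this]
  rwa [h3] at h2

instance : Nonempty OCode := ⟨OCode.zero⟩

/-- Player II has no winning strategy. -/
theorem not_winsII {C : Set (ℕ → Bool)} (hC : Selective C) (hne : C.Nonempty) :
    ¬ WinsII (Lists C) := by
  classical
  rintro ⟨τ, hτ⟩
  have : Nonempty C := hne.to_subtype
  let V : OCode → ℕ → Bool → Set (ℕ → C) := fun c l b =>
    {h | play 1 τ (jn fun n => (h n : ℕ → Bool)) ∈ U c l b}
  have hV : ∀ c l b, PreOpen (V c l b) := fun c l b => preOpen_of Subtype.val 1 τ (isOpen_U c l b)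
  have hdis : ∀ c l h, ¬ (h ∈ V c l true ∧ h ∈ V c l false) := fun c l h => disjoint_U c l _
  obtain ⟨h, hD, hC'⟩ := generic hC V hV hdis
    (fun q : OCode × ℕ => {h : ℕ → C | ∀ y ∈ C, Const (V q.1) q.2 h y → ∃ j, (h j : ℕ → Bool) = y})
    (by
      rintro ⟨c, k⟩ h hh
      by_cases hex : ∃ y ∈ C, Const (V c) k h y
      · obtain ⟨y, hy, hc⟩ := hex
        obtain ⟨j, hj⟩ := hh y hy hc
        refine ⟨max k (j + 1), fun h' hh' y' hy' hc' => ⟨j, ?_⟩⟩
        have h1 : Const (V c) k h y' := hc'.mono le_rfl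
          fun i hi => (hh' i (hi.trans_le (le_max_left _ _))).symm
        rw [← hc.unique' (hV c) (hdis c) h1, ← hj,
          hh' j (lt_of_lt_of_le (Nat.lt_succ_self j) (le_max_right _ _))]
      · refine ⟨k, fun h' hh' y' hy' hc' => absurd ⟨y', hy', ?_⟩ hex⟩
        exact hc'.mono le_rfl fun i hi => (hh' i hi).symm)
    (by
      rintro ⟨c, k⟩ h k0
      by_cases hex : ∃ y ∈ C, Const (V c) k h y
      · obtain ⟨y, hy, hc⟩ := hex
        refine ⟨Function.update h (max k k0) ⟨y, hy⟩, fun y' hy' hc' => ⟨max k k0, ?_⟩,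
          fun j hj => ?_⟩
        · have h1 : Const (V c) k h y' := hc'.mono le_rfl fun i hi => by
            rw [Function.update_of_ne (ne_of_lt (hi.trans_le (le_max_left _ _)))]
          rw [Function.update_self]
          exact hc.unique' (hV c) (hdis c) h1
        · rw [Function.update_of_ne (ne_of_lt (hj.trans_le (le_max_right _ _)))]
      · exact ⟨h, fun y' hy' hc' => absurd ⟨y', hy', hc'⟩ hex, fun _ _ => rfl⟩)
  let h' : ℕ → (ℕ → Bool) := fun n => (h n : ℕ → Bool)
  have hx : play 1 τ (jn h') ∉ Lists C := by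
    refine hτ _ fun n => ?_
    exact play_eq 1 τ (jn h') (by omega)
  refine hx ⟨jn h', jn_le (by norm_num) τ h', fun y => ⟨?_, ?_⟩⟩
  · rintro ⟨hyC, hy⟩
    obtain ⟨c, hc⟩ := exists_U hy
    obtain ⟨k, hk⟩ := hC' c y hc hyC
    obtain ⟨j, hj⟩ := hD (c, k) y hyC hk
    exact ⟨j, by rw [row_jn]; exact hj⟩
  · rintro ⟨i, rfl⟩
    rw [row_jn]
    exact ⟨(h i).2, row_le (by norm_num) τ h' i⟩

/-- Player I has no winning strategy. -/
theorem not_winsI {C : Set (ℕ → Bool)} (hC : Selective C)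
    (hCa : ∀ R ⊆ C, MeasureTheory.AnalyticSet R → R.Countable) (hunc : ¬ C.Countable) :
    ¬ WinsI (Lists C) := by
  classical
  rintro ⟨σ, hσ⟩
  let V : OCode × ℕ → ℕ → Bool → Set (ℕ → (ℕ → Bool)) := fun q l b =>
    {h | play 0 σ (jn fun n => h n) ∈ U q.1 (Nat.pair q.2 l) b}
  have hV : ∀ q l b, PreOpen (V q l b) := fun q l b =>
    preOpen_of (fun x : ℕ → Bool => x) 0 σ (isOpen_U q.1 (Nat.pair q.2 l) b)
  have hV' : ∀ q l b, IsOpen (V q l b) := fun q l b =>
    (isOpen_U q.1 (Nat.pair q.2 l) b).preimage ((continuous_play 0 σ).comp continuous_jn)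
  have hdis : ∀ q l h, ¬ (h ∈ V q l true ∧ h ∈ V q l false) := fun q l h =>
    disjoint_U q.1 (Nat.pair q.2 l) _
  obtain ⟨h, hD, hC'⟩ := generic hC V hV hdis
    (fun c : OCode => {h : ℕ → (ℕ → Bool) | ∃ k,
      (∃ i, ∃ v, v ∉ C ∧ Const (V (c, i)) k h v) ∨
      ∃ j < k, h j ∈ C ∧ ∀ i, ∀ k' ≥ k, ∀ h' : ℕ → (ℕ → Bool), (∀ m < k, h' m = h m) →
        ¬ Const (V (c, i)) k' h' (h j)})
    (by
      rintro c h ⟨k, hk⟩
      refine ⟨k, fun h' hh' => ⟨k, ?_⟩⟩
      rcases hk with ⟨i, v, hv, hc⟩ | ⟨j, hj, hjC, hc⟩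
      · exact Or.inl ⟨i, v, hv, hc.mono le_rfl hh'⟩
      · refine Or.inr ⟨j, hj, ?_, fun i k' hk' h'' hh'' => ?_⟩
        · rw [hh' j hj]
          exact hjC
        · rw [hh' j hj]
          exact hc i k' hk' h'' fun m hm => (hh'' m hm).trans (hh' m hm))
    (by
      intro c h k
      by_cases hex : ∃ i, ∃ k' ≥ k, ∃ h' : ℕ → (ℕ → Bool), (∀ m < k, h' m = h m) ∧
          ∃ v, v ∉ C ∧ Const (V (c, i)) k' h' v
      · obtain ⟨i, k', hk', h', hh', v, hv, hc⟩ := hex
        exact ⟨h', ⟨k', Or.inl ⟨i, v, hv, hc⟩⟩, hh'⟩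
      · have hcount : (⋃ i, {v : ℕ → Bool | ∃ k' ≥ k, ∃ h' : ℕ → (ℕ → Bool),
            (∀ m < k, h' m = h m) ∧ Const (V (c, i)) k' h' v}).Countable := by
          refine countable_iUnion fun i => hCa _ ?_
            (analytic_consts (V (c, i)) (hV' (c, i)) k h)
          rintro v ⟨k', hk', h', hh', hc⟩
          by_contra hv
          exact hex ⟨i, k', hk', h', hh', v, hv, hc⟩
        obtain ⟨c0, hc0, hc0'⟩ : ∃ c0 ∈ C, c0 ∉ ⋃ i, {v : ℕ → Bool | ∃ k' ≥ k,
            ∃ h' : ℕ → (ℕ → Bool), (∀ m < k, h' m = h m) ∧ Const (V (c, i)) k' h' v} := by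
          by_contra hcon
          push Not at hcon
          exact hunc (hcount.mono hcon)
        have hupd : ∀ m < k, Function.update h k c0 m = h m := fun m hm => by
          rw [Function.update_of_ne (ne_of_lt hm)]
        refine ⟨Function.update h k c0, ⟨k + 1, Or.inr ⟨k, Nat.lt_succ_self k, ?_,
          fun i k' hk' h' hh' hc => hc0' ?_⟩⟩, hupd⟩
        · rw [Function.update_self]
          exact hc0
        · rw [Function.update_self] at hc
          exact mem_iUnion.2 ⟨i, k', (Nat.le_succ k).trans hk', h', fun m hm =>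
            (hh' m (hm.trans (Nat.lt_succ_self k))).trans (hupd m hm), hc⟩)
  have hx : play 0 σ (jn h) ∈ Lists C := by
    refine hσ _ fun n => ?_
    exact play_eq 0 σ (jn h) (by omega)
  obtain ⟨L, hL, hrows⟩ := hx
  obtain ⟨c, hc⟩ := exists_U hL
  have hrow : ∀ i l, h ∈ V (c, i) l (row L i l) := fun i l => hc (Nat.pair i l)
  obtain ⟨k, hk⟩ := hD c
  rcases hk with ⟨i, v, hv, hcv⟩ | ⟨j, hj, hjC, hcv⟩
  · refine hv ?_
    rw [hcv.unique (hV _) (hdis _) (hrow i)]
    exact ((hrows _).2 ⟨i, rfl⟩).1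
  · obtain ⟨i, hi⟩ := (hrows (h j)).1 ⟨hjC, row_le (by norm_num) σ h j⟩
    obtain ⟨k', hk'⟩ := hC' (c, i) (h j) (by
      intro l
      rw [← hi]
      exact hrow i l) hjC
    refine hcv i (max k k') (le_max_left _ _) h (fun _ _ => rfl) ?_
    exact hk'.mono (le_max_right _ _) fun _ _ => rfl

/-- The main theorem. -/
theorem main (C : Set (ℕ → Bool)) (h : WinsI (Lists C) ∨ WinsII (Lists C)) :
    C.Countable ∨ ∃ P : Set (ℕ → Bool), Perfect P ∧ P.Nonempty ∧
      ∀ Q ⊆ P, Perfect Q → Q.Nonempty → (Q ∩ C).Nonempty := by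
  by_cases hC : MarczewskiNull C
  · left
    by_contra hunc
    rcases h with h | h
    · exact not_winsI (select hC) (fun R hR hR' => countable_of_analytic hC hR' hR) hunc h
    · refine not_winsII (select hC) ?_ h
      rw [Set.nonempty_iff_ne_empty]
      rintro rfl
      exact hunc countable_empty
  · right
    unfold MarczewskiNull at hC
    push Not at hC
    obtain ⟨P, hP, hne, hC⟩ := hC
    refine ⟨P, hP, hne, fun Q hQ hQp hQne => ?_⟩
    have h1 := hC Q hQ hQp hQne
    rwa [Set.not_disjoint_iff_nonempty_inter] at h1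

end Pool.Agent.Helper25TD
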