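import Mathlib
import Pool.Agent.Helper25_TD.Main
import Pool.Agent.Helper25_TD.Oracle

/-!
# Cantor space as a countable union of sets that map injectively and continuously into `C`
-/

set_option autoImplicit false

namespace Pool.Agent.Helper25TD

open Topology Set

/-- Cantor space is a countable union of sets `{α ∈ E e | H e α ∈ C, and H e takes this value
at no other point of E e}`, with closed sets `E e` and continuous functions `H e`. -/
def Star (C : Set (ℕ → Bool)) : Prop :=
  ∃ (E : ℕ → Set (ℕ → Bool)) (H : ℕ → (ℕ → Bool) → (ℕ → Bool)), (∀ e, IsClosed (E e)) ∧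
    (∀ e, Continuous (H e)) ∧
    ∀ α, ∃ e, α ∈ E e ∧ H e α ∈ C ∧ ∀ β ∈ E e, H e β = H e α → β = α

theorem selective_of_not_star {C : Set (ℕ → Bool)} (h : ¬ Star C) : Selective C := by
  intro E hE H hH N hN
  by_contra hcon
  push Not at hcon
  refine h ⟨E, H, hE, hH, fun α => ?_⟩
  obtain ⟨e, h1, h2, h3⟩ := hcon α
  refine ⟨e, h1, h2, fun β hβ hβ' => ?_⟩
  by_contra hne
  exact h3 (hN e α β (Ne.symm hne) h1 hβ hβ'.symm)

theorem countable_of_not_star {C : Set (ℕ → Bool)} (h : ¬ Star C) :
    ∀ R ⊆ C, MeasureTheory.AnalyticSet R → R.Countable := by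
  intro R hRC hR
  by_contra hunc
  obtain ⟨Q, hQR, hQ, hne⟩ := analytic_perfect hR hunc
  have hpol : PolishSpace (ℕ → Bool) := polish_of
  obtain ⟨f, hf1, hf2, hf3⟩ := hQ.closed.exists_nat_bool_injection_of_not_countable
    (perfect_not_countable hQ hne)
  refine h ⟨fun _ => Set.univ, fun _ => f, fun _ => isClosed_univ, fun _ => hf2, fun α => ?_⟩
  exact ⟨0, mem_univ _, hRC (hQR (hf1 (mem_range_self α))), fun β _ hβ => hf3 hβ⟩

/-- The dichotomy. -/
theorem star_main (C : Set (ℕ → Bool)) (h : WinsI (Lists C) ∨ WinsII (Lists C)) :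
    C.Countable ∨ Star C := by
  by_contra hcon
  push Not at hcon
  obtain ⟨hunc, hS⟩ := hcon
  rcases h with h | h
  · exact not_winsI (selective_of_not_star hS) (countable_of_not_star hS) hunc h
  · refine not_winsII (selective_of_not_star hS) ?_ h
    rw [Set.nonempty_iff_ne_empty]
    rintro rfl
    exact hunc countable_empty

theorem not_marczewskiNull_of_star {C : Set (ℕ → Bool)} (h : Star C) : ¬ MarczewskiNull C := by
  rintro hC
  obtain ⟨E, H, hE, hH, hS⟩ := h
  obtain ⟨α, hα⟩ := select hC E hE H hH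
    (fun e => {α | ∃ β ∈ E e, β ≠ α ∧ H e β = H e α})
    (fun e α β hne hα hβ hH => ⟨β, hβ, hne.symm, hH.symm⟩)
  obtain ⟨e, h1, h2, h3⟩ := hS α
  obtain ⟨β, hβ, hne, hH'⟩ := hα e h1 h2
  exact hne (h3 β hβ hH')

/-! ### values of continuous functions -/

theorem exists_table_continuous {H : (ℕ → Bool) → (ℕ → Bool)} (hH : Continuous H) :
    ∃ z1 z2 : ℕ → Bool, ∀ x J, TLE x J → TLE z1 J → TLE z2 J → TLE (H x) J := by
  classical
  let P : ℕ → ℕ → Bool → Prop := fun w l b => ∀ α n, code α n = w → H α l = b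
  refine ⟨fun m => decide (∃ b, P (Nat.unpair m).1 (Nat.unpair m).2 b),
    fun m => decide (P (Nat.unpair m).1 (Nat.unpair m).2 true), fun x J hx h1 h2 =>
    TLE.of_table hx h1 h2 (fun l => ?_) (fun l n h => ?_)⟩
  · have hop : IsOpen {β | H β l = H x l} := (isOpen_discrete {H x l}).preimage
      ((continuous_apply l : Continuous fun β : ℕ → Bool => β l).comp hH)
    obtain ⟨n, hn⟩ := exists_cyl hop (α := x) rfl
    refine ⟨n, ?_⟩
    simp only [Nat.unpair_pair, decide_eq_true_eq]
    refine ⟨H x l, fun α m h => hn α ?_⟩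
    obtain ⟨rfl, h3⟩ := code_inj h
    exact h3
  · simp only [Nat.unpair_pair, decide_eq_true_eq] at h ⊢
    obtain ⟨b, hb⟩ := h
    have hb' := hb x n rfl
    cases hb2 : H x l with
    | true =>
      rw [hb'] at hb2
      subst hb2
      exact decide_eq_true hb
    | false =>
      refine decide_eq_false fun h => ?_
      have := h x n rfl
      rw [hb2] at this
      exact absurd this (by simp)

theorem exists_table_inverse {E : Set (ℕ → Bool)} (hE : IsClosed E)
    {H : (ℕ → Bool) → (ℕ → Bool)} (hH : Continuous H) :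
    ∃ z1 z2 : ℕ → Bool, ∀ α ∈ E, (∀ β ∈ E, H β = H α → β = α) →
      ∀ J, TLE (H α) J → TLE z1 J → TLE z2 J → TLE α J := by
  classical
  let P : ℕ → ℕ → Bool → Prop := fun w l b => ∀ β ∈ E, ∀ n, code (H β) n = w → β l = b
  refine ⟨fun m => decide (∃ b, P (Nat.unpair m).1 (Nat.unpair m).2 b),
    fun m => decide (P (Nat.unpair m).1 (Nat.unpair m).2 true), fun α hα huniq J hx h1 h2 =>
    TLE.of_table hx h1 h2 (fun l => ?_) (fun l n h => ?_)⟩
  · by_contra hcon
    push Not at hcon
    let K : ℕ → Set (ℕ → Bool) := fun n =>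
      (E ∩ {β | β l = !α l}) ∩ {β | ∀ j < n, H β j = H α j}
    have hKc : ∀ n, IsClosed (K n) := by
      intro n
      refine (hE.inter ?_).inter ?_
      · exact (isClosed_discrete {!α l}).preimage
          (continuous_apply l : Continuous fun β : ℕ → Bool => β l)
      · have : {β | ∀ j < n, H β j = H α j} = H ⁻¹' {γ | ∀ j < n, γ j = H α j} := rfl
        rw [this]
        exact (isClosed_cyl (H α) n).preimage hH
    obtain ⟨β, hβ⟩ := IsCompact.nonempty_iInter_of_sequence_nonempty_isCompact_isClosed K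
      (fun n β hβ => ⟨hβ.1, fun j hj => hβ.2 j (hj.trans (Nat.lt_succ_self n))⟩)
      (fun n => by
        have h3 := hcon n
        simp only [Nat.unpair_pair, ne_eq, decide_eq_true_eq] at h3
        rw [not_exists] at h3
        have h4 := h3 (α l)
        simp only [P] at h4
        push Not at h4
        obtain ⟨β, hβ, m, hm, hne⟩ := h4
        obtain ⟨rfl, h5⟩ := code_inj hm
        refine ⟨β, ⟨hβ, ?_⟩, h5⟩
        change β l = !α l
        cases h6 : β l <;> cases h7 : α l <;> simp_all)
      (hKc 0).isCompact hKc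
    have h3 : ∀ n, β ∈ K n := fun n => Set.mem_iInter.1 hβ n
    have h4 : H β = H α := funext fun j => (h3 (j + 1)).2 j (Nat.lt_succ_self j)
    have h5 := huniq β (h3 0).1.1 h4
    have h6 : β l = !α l := (h3 0).1.2
    rw [h5] at h6
    cases h7 : α l <;> simp [h7] at h6
  · simp only [Nat.unpair_pair, decide_eq_true_eq] at h ⊢
    obtain ⟨b, hb⟩ := h
    have hb' := hb α hα n rfl
    cases hb2 : α l with
    | true =>
      rw [hb'] at hb2
      subst hb2
      exact decide_eq_true hb
    | false =>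
      refine decide_eq_false fun h => ?_
      have := h α hα n rfl
      rw [hb2] at this
      exact absurd this (by simp)

theorem TLE.row (x : ℕ → Bool) (i : ℕ) : TLE (row x i) x :=
  TLE.sub (x := x) (f := fun l => Nat.pair i l) (Primrec₂.natPair.comp (Primrec.const i) Primrec.id)

/-- The degree form of the property `Star`. -/
theorem degrees_of_star {C : Set (ℕ → Bool)} (h : Star C) :
    ∃ z, ∀ x, ∃ c ∈ C, TLE (join c z) (join x z) ∧ TLE (join x z) (join c z) := by
  obtain ⟨E, H, hE, hH, hS⟩ := h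
  choose z1 z2 h1 using fun e => exists_table_continuous (hH e)
  choose z3 z4 h2 using fun e => exists_table_inverse (hE e) (hH e)
  let z : ℕ → Bool := jn fun e => jn fun j =>
    if j = 0 then z1 e else if j = 1 then z2 e else if j = 2 then z3 e else z4 e
  have hz : ∀ e, TLE (z1 e) z ∧ TLE (z2 e) z ∧ TLE (z3 e) z ∧ TLE (z4 e) z := by
    intro e
    have h3 : ∀ j, TLE (row (row z e) j) z := fun j => (TLE.row _ j).trans (TLE.row z e)
    have h4 : row z e = jn fun j =>
        if j = 0 then z1 e else if j = 1 then z2 e else if j = 2 then z3 e else z4 e := row_jn _ e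
    refine ⟨?_, ?_, ?_, ?_⟩
    · have h5 := h3 0
      rw [h4, row_jn] at h5
      exact h5
    · have h5 := h3 1
      rw [h4, row_jn] at h5
      exact h5
    · have h5 := h3 2
      rw [h4, row_jn] at h5
      exact h5
    · have h5 := h3 3
      rw [h4, row_jn] at h5
      exact h5
  refine ⟨z, fun x => ?_⟩
  obtain ⟨e, hxE, hC, huniq⟩ := hS x
  refine ⟨H e x, hC, TLE.join ?_ (TLE.join_right _ _), TLE.join ?_ (TLE.join_right _ _)⟩
  · exact h1 e x _ (TLE.join_left _ _) ((hz e).1.trans (TLE.join_right _ _))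
      ((hz e).2.1.trans (TLE.join_right _ _))
  · exact h2 e x hxE huniq _ (TLE.join_left _ _) ((hz e).2.2.1.trans (TLE.join_right _ _))
      ((hz e).2.2.2.trans (TLE.join_right _ _))

end Pool.Agent.Helper25TD
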