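import Mathlib
import Pool.Agent.Helper25_TD.Star

/-!
# Turing determinacy and the degrees of the elements of an uncountable set

For every set `C` of reals, the explicit Turing invariant set `Lists C` has the following property:
if the game with payoff set `Lists C` is determined, then `C` is countable or, relative to some
real `z`, the set `C` has elements of every Turing degree.
-/

set_option autoImplicit false

namespace Pool.Agent.Results.MP_917879_lc.RelativeCone

open Pool.Agent.Helper25TD

/-- `Lists C` is Turing invariant, and if it is determined, then `C` is countable or there is a
real `z` such that for every real `x` some `c` in `C` has `c ⊕ z ≡_T x ⊕ z`. -/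
theorem result (C : Set (ℕ → Bool)) :
    TuringInvariant (Lists C) ∧
    (WinsI (Lists C) ∨ WinsII (Lists C) →
      C.Countable ∨ ∃ z : ℕ → Bool, ∀ x : ℕ → Bool, ∃ c ∈ C,
        TLE (join c z) (join x z) ∧ TLE (join x z) (join c z)) :=
  ⟨turingInvariant_lists C, fun h => (star_main C h).imp id degrees_of_star⟩

end Pool.Agent.Results.MP_917879_lc.RelativeCone
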