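import Mathlib
import Pool.Agent.Helper25_TD.Main

/-!
# Turing determinacy and a weak perfect set property

For every set `C` of reals, the explicit Turing invariant set `Lists C` has the following property:
if the game with payoff set `Lists C` is determined, then `C` is countable or meets every nonempty
perfect subset of some nonempty perfect set.
-/

set_option autoImplicit false

namespace Pool.Agent.Helper25TD.WeakPerfectSet

open Pool.Agent.Helper25TD

/-- `Lists C` is Turing invariant, and if it is determined, then `C` is countable or there is a
nonempty perfect set `P` such that `C` meets every nonempty perfect subset of `P`. -/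
theorem result (C : Set (ℕ → Bool)) :
    TuringInvariant (Lists C) ∧
    (WinsI (Lists C) ∨ WinsII (Lists C) →
      C.Countable ∨ ∃ P : Set (ℕ → Bool), Perfect P ∧ P.Nonempty ∧
        ∀ Q ⊆ P, Perfect Q → Q.Nonempty → (Q ∩ C).Nonempty) :=
  ⟨turingInvariant_lists C, main C⟩

end Pool.Agent.Helper25TD.WeakPerfectSet
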